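import Mathlib

set_option autoImplicit false

namespace Pool.Agent.R945.LD

open Finset Matrix

variable {m : ℕ} {R : Type*} [CommRing R]

/-- bordered matrix -/
def bd (c : R) (r u : Fin m → R) (M : Matrix (Fin m) (Fin m) R) :
    Matrix (Fin (m + 1)) (Fin (m + 1)) R :=
  Matrix.of fun i j => Fin.cases (Fin.cases c r j) (fun i' => Fin.cases (u i') (M i') j) i

omit [CommRing R] in
lemma bd_00 (c : R) (r u : Fin m → R) (M : Matrix (Fin m) (Fin m) R) : bd c r u M 0 0 = c := rfl
omit [CommRing R] in
lemma bd_0s (c : R) (r u : Fin m → R) (M : Matrix (Fin m) (Fin m) R) (k : Fin m) :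
    bd c r u M 0 k.succ = r k := rfl
omit [CommRing R] in
lemma bd_s0 (c : R) (r u : Fin m → R) (M : Matrix (Fin m) (Fin m) R) (j : Fin m) :
    bd c r u M j.succ 0 = u j := rfl
omit [CommRing R] in
lemma bd_ss (c : R) (r u : Fin m → R) (M : Matrix (Fin m) (Fin m) R) (j k : Fin m) :
    bd c r u M j.succ k.succ = M j k := rfl

lemma eq_bd {N : Matrix (Fin (m + 1)) (Fin (m + 1)) R} {c : R} {r u : Fin m → R}
    {M : Matrix (Fin m) (Fin m) R} (h00 : N 0 0 = c) (h0s : ∀ k, N 0 k.succ = r k)
    (hs0 : ∀ j, N j.succ 0 = u j) (hss : ∀ j k, N j.succ k.succ = M j k) : N = bd c r u M := by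
  ext i j
  refine Fin.cases ?_ (fun i' => ?_) i
  · refine Fin.cases ?_ (fun j' => ?_) j
    · rw [h00, bd_00]
    · rw [h0s, bd_0s]
  · refine Fin.cases ?_ (fun j' => ?_) j
    · rw [hs0, bd_s0]
    · rw [hss, bd_ss]

lemma bd_transpose (c : R) (r u : Fin m → R) (M : Matrix (Fin m) (Fin m) R) :
    (bd c r u M)ᵀ = bd c u r Mᵀ := by
  apply eq_bd <;> intros <;> rfl

lemma bd_elim_row (c : R) (r u : Fin m → R) (M : Matrix (Fin m) (Fin m) R) :
    (bd c r (fun j => u j + c) (Matrix.of fun j k => M j k + r k)).det = (bd c r u M).det := by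
  apply det_eq_of_forall_row_eq_smul_add_const (Fin.cases 0 (fun _ => 1)) 0 rfl
  intro i j
  refine Fin.cases ?_ (fun i' => ?_) i
  · refine Fin.cases ?_ (fun j' => ?_) j
    · simp [bd_00]
    · simp [bd_0s]
  · refine Fin.cases ?_ (fun j' => ?_) j
    · simp [bd_s0, bd_00]
    · simp [bd_ss, bd_0s]

lemma bd_elim_col (c : R) (r u : Fin m → R) (M : Matrix (Fin m) (Fin m) R) :
    (bd c (fun k => r k + c) u (Matrix.of fun j k => M j k + u j)).det = (bd c r u M).det := by
  rw [← det_transpose, bd_transpose, ← det_transpose (bd c r u M), bd_transpose]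
  exact bd_elim_row c u r Mᵀ

lemma bd_elim (c : R) (r u : Fin m → R) (M : Matrix (Fin m) (Fin m) R) :
    (bd c (fun k => r k + c) (fun j => u j + c)
      (Matrix.of fun j k => M j k + u j + r k + c)).det = (bd c r u M).det := by
  have h1 := bd_elim_row c (fun k => r k + c) u (Matrix.of fun j k => M j k + u j)
  rw [bd_elim_col] at h1
  rw [← h1]
  congr 2
  ext j k
  simp only [Matrix.of_apply]
  ring

lemma bd_corner (c : R) (r u : Fin m → R) (M : Matrix (Fin m) (Fin m) R) :
    (bd c r u M).det = c * M.det + (bd 0 r u M).det := by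
  rw [det_succ_row_zero, det_succ_row_zero (bd 0 r u M), Fin.sum_univ_succ, Fin.sum_univ_succ]
  have hsub : ∀ (c : R) (j : Fin (m + 1)),
      (bd c r u M).submatrix Fin.succ j.succAbove = (bd 0 r u M).submatrix Fin.succ j.succAbove := by
    intro c j
    ext a b
    simp only [submatrix_apply]
    refine Fin.cases ?_ (fun j' => ?_) (j.succAbove b)
    · rfl
    · rfl
  have h0 : (bd 0 r u M).submatrix Fin.succ (Fin.succAbove 0) = M := by
    ext a b
    simp only [submatrix_apply, Fin.zero_succAbove]
    rfl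
  simp only [hsub c, bd_0s, bd_00, h0]
  simp

lemma bd_schur (r u : Fin m → R) (M : Matrix (Fin m) (Fin m) R) :
    (bd 1 r u M).det = (Matrix.of fun j k => M j k - u j * r k).det := by
  have h1 : (bd 1 r u M).det = (bd 1 r 0 (Matrix.of fun j k => M j k - u j * r k)).det := by
    apply det_eq_of_forall_row_eq_smul_add_const (Fin.cases 0 u) 0 rfl
    intro i j
    refine Fin.cases ?_ (fun i' => ?_) i
    · refine Fin.cases ?_ (fun j' => ?_) j
      · simp [bd_00]
      · simp [bd_0s]
    · refine Fin.cases ?_ (fun j' => ?_) j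
      · simp [bd_s0, bd_00]
      · simp [bd_ss, bd_0s]
  rw [h1, det_succ_column_zero, Fin.sum_univ_succ]
  have h0 : (bd 1 r 0 (Matrix.of fun j k => M j k - u j * r k)).submatrix (Fin.succAbove 0) Fin.succ
      = Matrix.of fun j k => M j k - u j * r k := by
    ext a b
    simp only [submatrix_apply, Fin.zero_succAbove]
    rfl
  rw [h0]
  simp [bd_00, bd_s0]

/-- the bordered determinant with zero corner as a difference of determinants -/
lemma bd_zero (r u : Fin m → R) (M : Matrix (Fin m) (Fin m) R) :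
    (bd 0 r u M).det = (Matrix.of fun j k => M j k - u j * r k).det - M.det := by
  have h1 := bd_corner 1 r u M
  rw [bd_schur] at h1
  linear_combination -h1

lemma bd_scale (y z : R) (r u : Fin m → R) (M : Matrix (Fin m) (Fin m) R) :
    (bd 0 (fun k => z * r k) (fun j => y * u j) M).det = y * z * (bd 0 r u M).det := by
  have h : bd 0 (fun k => z * r k) (fun j => y * u j) M =
      diagonal (Fin.cons z (fun _ => 1)) * bd 0 r u M * diagonal (Fin.cons y (fun _ => 1)) := by
    symm
    apply eq_bd
    · rw [mul_diagonal, diagonal_mul, bd_00]; simp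
    · intro k; rw [mul_diagonal, diagonal_mul, bd_0s]; simp
    · intro k; rw [mul_diagonal, diagonal_mul, bd_s0]; simp [mul_comm]
    · intro j k; rw [mul_diagonal, diagonal_mul, bd_ss]; simp
  rw [h, det_mul, det_mul, det_diagonal, det_diagonal, Fin.prod_univ_succ, Fin.prod_univ_succ]
  simp
  ring

/-- sums of symmetric arrays with even off-diagonal entries -/
lemma four_dvd (G : ℕ → ℕ → ℤ) (n : ℕ) (hs : ∀ j < n, ∀ k < n, G j k = G k j)
    (he : ∀ j < n, ∀ k < n, j ≠ k → 2 ∣ G j k) :
    (4 : ℤ) ∣ ∑ j ∈ range n, ∑ k ∈ range n, G j k - ∑ j ∈ range n, G j j := by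
  induction n with
  | zero => simp
  | succ n ih =>
    have ih' := ih (fun j hj k hk => hs j (by omega) k (by omega))
      (fun j hj k hk hjk => he j (by omega) k (by omega) hjk)
    have e1 : ∑ j ∈ range (n + 1), ∑ k ∈ range (n + 1), G j k =
        ∑ j ∈ range n, ∑ k ∈ range n, G j k + 2 * ∑ j ∈ range n, G j n + G n n := by
      rw [Finset.sum_range_succ]
      have : ∀ j ∈ range n, ∑ k ∈ range (n + 1), G j k = ∑ k ∈ range n, G j k + G j n := by
        intro j _; rw [Finset.sum_range_succ]
      rw [Finset.sum_congr rfl this, Finset.sum_add_distrib, Finset.sum_range_succ]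
      have h2 : ∑ k ∈ range n, G n k = ∑ j ∈ range n, G j n := by
        apply Finset.sum_congr rfl
        intro k hk
        rw [Finset.mem_range] at hk
        exact hs n (by omega) k (by omega)
      rw [h2]; ring
    have h3 : (2 : ℤ) ∣ ∑ j ∈ range n, G j n := by
      apply Finset.dvd_sum
      intro j hj
      rw [Finset.mem_range] at hj
      exact he j (by omega) n (by omega) (by omega)
    obtain ⟨c, hc⟩ := h3
    obtain ⟨d, hd⟩ := ih'
    rw [e1, hc, Finset.sum_range_succ]
    refine ⟨d + c, ?_⟩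
    linear_combination hd

end Pool.Agent.R945.LD
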