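import Mathlib

set_option autoImplicit false

namespace Pool.Agent.R945.LD

open Finset

section base

variable {p : ℕ} [Fact p.Prime]

/-- the quadratic character modulo `p`, integer valued. -/
noncomputable abbrev q (p : ℕ) [Fact p.Prime] : ZMod p → ℤ := fun a => quadraticChar (ZMod p) a

lemma two_ne (hp2 : p ≠ 2) : (2 : ZMod p) ≠ 0 := by
  intro h
  have : ((2 : ℕ) : ZMod p) = 0 := by exact_mod_cast h
  rw [ZMod.natCast_eq_zero_iff] at this
  exact hp2 ((Nat.prime_dvd_prime_iff_eq (Fact.out : p.Prime) Nat.prime_two).mp this)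

lemma ringChar_ne (hp2 : p ≠ 2) : ringChar (ZMod p) ≠ 2 := by
  rw [ZMod.ringChar_zmod_n]; exact hp2

lemma q_sq {a : ZMod p} (ha : a ≠ 0) : q p a * q p a = 1 := by
  have := quadraticChar_sq_one (F := ZMod p) ha
  rw [← sq]; exact this

lemma q_zero : q p 0 = 0 := by simp [q]

lemma q_mul (a b : ZMod p) : q p (a * b) = q p a * q p b := map_mul (quadraticChar (ZMod p)) a b

lemma q_neg_one_of_one (h1 : p % 4 = 1) : q p (-1) = 1 := by
  have hp2 : p ≠ 2 := by rintro rfl; omega
  show quadraticChar (ZMod p) (-1) = 1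
  rw [quadraticChar_neg_one (ringChar_ne hp2), ZMod.card]
  exact ZMod.χ₄_nat_one_mod_four h1

lemma q_neg_one_of_three (h3 : p % 4 = 3) : q p (-1) = -1 := by
  have hp2 : p ≠ 2 := by rintro rfl; omega
  show quadraticChar (ZMod p) (-1) = -1
  rw [quadraticChar_neg_one (ringChar_ne hp2), ZMod.card]
  exact ZMod.χ₄_nat_three_mod_four h3

lemma q_neg (a : ZMod p) : q p (-a) = q p (-1) * q p a := by
  rw [← q_mul]; simp

lemma q_sum (hp2 : p ≠ 2) : ∑ a : ZMod p, q p a = 0 :=
  quadraticChar_sum_zero (ringChar_ne hp2)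

/-- the sum `∑ q(a) q(a+c)`. -/
lemma q_corr (hp2 : p ≠ 2) (c : ZMod p) :
    ∑ a : ZMod p, q p a * q p (a + c) = (if c = 0 then (p : ℤ) else 0) - 1 := by
  by_cases hc : c = 0
  · subst hc
    have h1 : ∀ a : ZMod p, q p a * q p (a + 0) = 1 - if a = 0 then 1 else 0 := by
      intro a
      rw [add_zero]
      by_cases ha : a = 0
      · subst ha; rw [q_zero]; simp
      · rw [q_sq ha, if_neg ha]; simp
    rw [Finset.sum_congr rfl (fun a _ => h1 a)]
    simp
  · have hχ : quadraticChar (ZMod p) ≠ 1 := quadraticChar_ne_one (ringChar_ne hp2)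
    have hinv : (quadraticChar (ZMod p))⁻¹ = quadraticChar (ZMod p) :=
      (quadraticChar_isQuadratic (ZMod p)).inv
    have hJ := jacobiSum_nontrivial_inv hχ
    rw [hinv] at hJ
    have h1 : ∑ a : ZMod p, q p a * q p (a + c) =
        ∑ x : ZMod p, q p (-1) * (quadraticChar (ZMod p) x * quadraticChar (ZMod p) (1 - x)) := by
      symm
      apply Fintype.sum_equiv (Equiv.mulLeft₀ (-c) (neg_ne_zero.mpr hc))
      intro x
      show q p (-1) * (q p x * q p (1 - x)) = q p (-c * x) * q p (-c * x + c)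
      have e1 : -c * x + c = c * (1 - x) := by ring
      have e2 : -c * x = (-1) * (c * x) := by ring
      rw [e1, e2]
      rw [q_mul (-1), q_mul c, q_mul c]
      have := q_sq hc
      linear_combination (-(q p (-1) * q p x * q p (1 - x))) * this
    rw [h1, ← Finset.mul_sum]
    have h2 : ∑ x : ZMod p, (quadraticChar (ZMod p) x * quadraticChar (ZMod p) (1 - x)) =
        - quadraticChar (ZMod p) (-1) := hJ
    rw [h2, if_neg hc]
    have h3 := q_sq (p := p) (a := -1) (by simp)
    show q p (-1) * (- q p (-1)) = 0 - 1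
    linear_combination -h3

/-- sums over `ZMod p` folded to a half system. -/
lemma sum_half {M : Type*} [AddCommMonoid M] (m : ℕ) (hm : p = 2 * m + 1) (f : ZMod p → M) :
    ∑ a : ZMod p, f a = f 0 + ∑ j : Fin m, (f (((j : ℕ) : ZMod p) + 1) + f (-(((j : ℕ) : ZMod p) + 1))) := by
  have h1 : ∑ i : ZMod p, f i = ∑ i ∈ range p, f (i : ZMod p) := by
    symm
    apply Finset.sum_bij (fun (i : ℕ) _ => (i : ZMod p))
    · intro a _; simp
    · intro a ha b hb hab
      rw [Finset.mem_range] at ha hb
      have := congrArg ZMod.val hab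
      rwa [ZMod.val_natCast_of_lt ha, ZMod.val_natCast_of_lt hb] at this
    · intro b _
      exact ⟨b.val, by simpa using ZMod.val_lt b, by simp⟩
    · intro a _; rfl
  have h2 : p = (m + m) + 1 := by omega
  have h3 : ∑ i ∈ range p, f (i : ZMod p) = ∑ i ∈ range ((m + m) + 1), f (i : ZMod p) := by
    rw [← h2]
  rw [h1, h3, Finset.sum_range_succ', Finset.sum_range_add, add_comm]
  congr 1
  · simp
  · rw [Finset.sum_add_distrib]
    congr 1
    · rw [Fin.sum_univ_eq_sum_range (fun j => f ((j : ZMod p) + 1))]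
      apply Finset.sum_congr rfl
      intro i _
      push_cast
      rfl
    · rw [Fin.sum_univ_eq_sum_range (fun j => f (-((j : ZMod p) + 1)))]
      rw [← Finset.sum_range_reflect]
      apply Finset.sum_congr rfl
      intro i hi
      rw [Finset.mem_range] at hi
      congr 1
      have e : ((m + (m - 1 - i) + 1 : ℕ) : ZMod p) + ((i : ZMod p) + 1) = 0 := by
        have : ((m + (m - 1 - i) + 1 : ℕ) : ZMod p) + ((i : ZMod p) + 1) =
            ((m + (m - 1 - i) + 1 + (i + 1) : ℕ) : ZMod p) := by push_cast; ring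
        rw [this]
        have e2 : m + (m - 1 - i) + 1 + (i + 1) = p := by omega
        rw [e2]; simp
      exact eq_neg_of_add_eq_zero_left e

end base

end Pool.Agent.R945.LD
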