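import Mathlib

set_option autoImplicit false

namespace Pool.Agent.R945.LD

open Finset Matrix

/-- A real symmetric matrix with `S ^ 2 = c` (`c > 0`) and trace zero. -/
lemma det_of_sq {n : Type*} [Fintype n] [DecidableEq n] (S : Matrix n n ℝ) (hS : S.IsHermitian)
    (c : ℝ) (hc : 0 < c) (h : S * S = c • (1 : Matrix n n ℝ)) (ht : S.trace = 0) :
    ∃ k, Fintype.card n = 2 * k ∧ S.det = (-c) ^ k := by
  have hev : ∀ i, hS.eigenvalues i * hS.eigenvalues i = c := by
    intro i
    have h1 := hS.mulVec_eigenvectorBasis i
    set v : n → ℝ := ⇑(hS.eigenvectorBasis i) with hv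
    have hv0 : v ≠ 0 := by
      intro h0
      have h2 : ‖hS.eigenvectorBasis i‖ = 1 := hS.eigenvectorBasis.orthonormal.1 i
      have h3 : hS.eigenvectorBasis i = 0 := by
        ext j
        exact congrFun h0 j
      rw [h3, norm_zero] at h2
      exact zero_ne_one h2
    have h2 : (S * S).mulVec v = (hS.eigenvalues i * hS.eigenvalues i) • v := by
      rw [← mulVec_mulVec, h1, mulVec_smul, h1, smul_smul]
    rw [h, smul_mulVec, one_mulVec] at h2
    obtain ⟨j, hj⟩ := Function.ne_iff.mp hv0
    have h3 := congrFun h2 j
    simp only [Pi.smul_apply, smul_eq_mul] at h3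
    exact (mul_right_cancel₀ hj h3).symm
  set s := Real.sqrt c with hs
  have hspos : 0 < s := Real.sqrt_pos.mpr hc
  have hss : s * s = c := Real.mul_self_sqrt hc.le
  have hcase : ∀ i, hS.eigenvalues i = s ∨ hS.eigenvalues i = -s := by
    intro i
    have := hev i
    rw [← hss] at this
    exact mul_self_eq_mul_self_iff.mp this
  set P := univ.filter (fun i => hS.eigenvalues i = s) with hP
  set N := univ.filter (fun i => ¬ hS.eigenvalues i = s) with hN
  have hN2 : ∀ i ∈ N, hS.eigenvalues i = -s := by
    intro i hi
    rw [hN, Finset.mem_filter] at hi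
    exact (hcase i).resolve_left hi.2
  have hP2 : ∀ i ∈ P, hS.eigenvalues i = s := by
    intro i hi
    rw [hP, Finset.mem_filter] at hi
    exact hi.2
  have hcard : P.card + N.card = Fintype.card n := by
    rw [hP, hN]
    exact Finset.card_filter_add_card_filter_not _
  have hsum : ∑ i, hS.eigenvalues i = 0 := by
    have := hS.trace_eq_sum_eigenvalues
    rw [ht] at this
    simpa using this.symm
  rw [← Finset.sum_filter_add_sum_filter_not univ (fun i => hS.eigenvalues i = s),
    Finset.sum_congr rfl hP2, Finset.sum_congr rfl hN2, Finset.sum_const, Finset.sum_const] at hsum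
  have hPN : P.card = N.card := by
    have e : ((P.card : ℝ) - N.card) * s = 0 := by
      simp only [nsmul_eq_mul] at hsum
      linear_combination hsum
    rcases mul_eq_zero.mp e with h | h
    · exact_mod_cast sub_eq_zero.mp h
    · exact absurd h hspos.ne'
  refine ⟨P.card, by omega, ?_⟩
  have hdet := hS.det_eq_prod_eigenvalues
  simp only [RCLike.ofReal_real_eq_id, id_eq] at hdet
  rw [hdet, ← Finset.prod_filter_mul_prod_filter_not univ (fun i => hS.eigenvalues i = s),
    Finset.prod_congr rfl hP2, Finset.prod_congr rfl hN2, Finset.prod_const, Finset.prod_const,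
    ← hPN, ← mul_pow]
  congr 1
  linear_combination -hss

end Pool.Agent.R945.LD
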