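import Mathlib
import Pool.Agent.R945.LD.Base
import Pool.Agent.R945.LD.Spec

set_option autoImplicit false

namespace Pool.Agent.R945.LD

open Finset Matrix

variable {p : ℕ} [Fact p.Prime]

/-- the residue `j+1`. -/
def J (p : ℕ) (j : ℕ) : ZMod p := (j : ZMod p) + 1

lemma J_ne {m : ℕ} (hm : p = 2 * m + 1) (j : Fin m) : J p j ≠ 0 := by
  intro h
  have h1 : ((j.val + 1 : ℕ) : ZMod p) = 0 := by push_cast; exact h
  rw [ZMod.natCast_eq_zero_iff] at h1
  have := Nat.le_of_dvd (by omega) h1
  omega

lemma J_add_ne {m : ℕ} (hm : p = 2 * m + 1) (j k : Fin m) : J p j + J p k ≠ 0 := by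
  intro h
  have h1 : ((j.val + 1 + (k.val + 1) : ℕ) : ZMod p) = 0 := by push_cast; exact h
  rw [ZMod.natCast_eq_zero_iff] at h1
  have := Nat.le_of_dvd (by omega) h1
  omega

lemma J_sub {m : ℕ} (hm : p = 2 * m + 1) (j k : Fin m) : J p j - J p k = 0 ↔ j = k := by
  constructor
  · intro h
    have h1 : (j : ZMod p) = (k : ZMod p) := by
      unfold J at h; linear_combination h
    have := congrArg ZMod.val h1
    rw [ZMod.val_natCast_of_lt (by omega), ZMod.val_natCast_of_lt (by omega)] at this
    exact Fin.ext this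
  · rintro rfl; simp

/-- the matrix `q(j+k)+q(j-k)`. -/
noncomputable def Bm (p : ℕ) [Fact p.Prime] (m : ℕ) (R : Type*) [CommRing R] : Matrix (Fin m) (Fin m) R :=
  Matrix.of fun j k => ((q p (J p j + J p k) + q p (J p j - J p k) : ℤ) : R)

/-- the matrix `q(j+k)-q(j-k)`. -/
noncomputable def Am (p : ℕ) [Fact p.Prime] (m : ℕ) (R : Type*) [CommRing R] : Matrix (Fin m) (Fin m) R :=
  Matrix.of fun j k => ((q p (J p j + J p k) - q p (J p j - J p k) : ℤ) : R)

/-- the character on the half system. -/
noncomputable def xv (p : ℕ) [Fact p.Prime] (m : ℕ) (R : Type*) [CommRing R] : Fin m → R :=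
  fun j => ((q p (J p j) : ℤ) : R)

lemma xv_sq {m : ℕ} (hm : p = 2 * m + 1) {R : Type*} [CommRing R] (j : Fin m) :
    xv p m R j * xv p m R j = 1 := by
  unfold xv
  rw [← Int.cast_mul, q_sq (J_ne hm j), Int.cast_one]

/-- folding in the form used below. -/
lemma fold (m : ℕ) (hm : p = 2 * m + 1) (f : ZMod p → ℤ) :
    ∑ j : Fin m, (f (J p j) + f (-(J p j))) = ∑ a : ZMod p, f a - f 0 := by
  rw [sum_half m hm f]
  unfold J
  ring

lemma sum_B {m : ℕ} (hm : p = 2 * m + 1) (a : ZMod p) :
    ∑ k : Fin m, (q p (a + J p k) + q p (a - J p k)) = - q p a := by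
  have hp2 : p ≠ 2 := by omega
  have h := fold m hm (fun b => q p (a + b))
  have h2 : ∑ b : ZMod p, q p (a + b) = 0 := by
    rw [← q_sum hp2]
    exact Fintype.sum_equiv (Equiv.addLeft a) _ _ (fun _ => rfl)
  simp only [h2, add_zero, ← sub_eq_add_neg] at h
  rw [h]; ring

/-- the correlation sum, general form. -/
lemma corr2 (hp2 : p ≠ 2) (a b : ZMod p) :
    ∑ c : ZMod p, q p (a + c) * q p (b + c) = (if a - b = 0 then (p : ℤ) else 0) - 1 := by
  rw [← q_corr hp2 (a - b)]
  apply Fintype.sum_equiv (Equiv.addLeft b)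
  intro c
  show q p (a + c) * q p (b + c) = q p (b + c) * q p (b + c + (a - b))
  have e : b + c + (a - b) = a + c := by ring
  rw [e]; ring

section one

variable (h1 : p % 4 = 1)

include h1

lemma q_even (a : ZMod p) : q p (-a) = q p a := by
  rw [q_neg, q_neg_one_of_one h1, one_mul]

lemma sum_q {m : ℕ} (hm : p = 2 * m + 1) : ∑ k : Fin m, q p (J p k) = 0 := by
  have hp2 : p ≠ 2 := by omega
  have h := fold m hm (fun b => q p b)
  rw [q_sum hp2, q_zero] at h
  have e : ∀ k : Fin m, q p (J p k) + q p (-(J p k)) = 2 * q p (J p k) := by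
    intro k; rw [q_even h1]; ring
  rw [Finset.sum_congr rfl (fun k _ => e k), ← Finset.mul_sum] at h
  omega

lemma sum_Bq {m : ℕ} (hm : p = 2 * m + 1) (j : Fin m) :
    ∑ k : Fin m, (q p (J p j + J p k) + q p (J p j - J p k)) * q p (J p k) = - 1 := by
  have hp2 : p ≠ 2 := by omega
  have h := fold m hm (fun b => q p (J p j + b) * q p (0 + b))
  rw [corr2 hp2, if_neg (by rw [sub_zero]; exact J_ne hm j)] at h
  simp only [zero_add, q_zero, mul_zero] at h
  rw [← Finset.sum_congr rfl (fun k _ => ?_)] at h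
  · rw [h]; ring
  · rw [← sub_eq_add_neg, q_even h1]; ring

lemma sum_AA {m : ℕ} (hm : p = 2 * m + 1) (j k : Fin m) :
    ∑ l : Fin m, (q p (J p j + J p l) - q p (J p j - J p l)) *
      (q p (J p l + J p k) - q p (J p l - J p k)) = if j = k then (p : ℤ) else 0 := by
  have hp2 : p ≠ 2 := by omega
  have e : ∀ c : ZMod p, (q p (J p j + c) - q p (J p j - c)) * (q p (c + J p k) - q p (c - J p k)) =
      q p (J p j + c) * q p (J p k + c) - q p (J p j + c) * q p (-J p k + c)
      - q p (-J p j + c) * q p (J p k + c) + q p (-J p j + c) * q p (-J p k + c) := by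
    intro c
    have e1 : q p (J p j - c) = q p (-J p j + c) := by
      rw [← q_even h1]; congr 1; ring
    rw [e1, add_comm c (J p k), sub_eq_add_neg c (J p k), add_comm c (-J p k)]; ring
  have h := fold m hm (fun c => (q p (J p j + c) - q p (J p j - c)) * (q p (c + J p k) - q p (c - J p k)))
  have hbig : ∑ c : ZMod p, (q p (J p j + c) - q p (J p j - c)) * (q p (c + J p k) - q p (c - J p k)) =
      ((if J p j - J p k = 0 then (p : ℤ) else 0) - 1) - ((if J p j - -J p k = 0 then (p : ℤ) else 0) - 1)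
      - ((if -J p j - J p k = 0 then (p : ℤ) else 0) - 1)
      + ((if -J p j - -J p k = 0 then (p : ℤ) else 0) - 1) := by
    rw [Finset.sum_congr rfl (fun c _ => e c), Finset.sum_add_distrib, Finset.sum_sub_distrib,
      Finset.sum_sub_distrib, corr2 hp2, corr2 hp2, corr2 hp2, corr2 hp2]
  rw [hbig] at h
  have hjk := J_add_ne hm j k
  have i1 : (J p j - J p k = 0) = (j = k) := propext (J_sub hm j k)
  have i2 : J p j - -J p k ≠ 0 := by rwa [sub_neg_eq_add]
  have i3 : -J p j - J p k ≠ 0 := by
    intro h0; apply hjk; linear_combination -h0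
  have i4 : (-J p j - -J p k = 0) = (j = k) := by
    rw [← i1]; apply propext
    constructor
    · intro h0; linear_combination -h0
    · intro h0; linear_combination -h0
  rw [if_neg i2, if_neg i3] at h
  simp only [i1, i4, add_zero, sub_zero, zero_add, zero_sub, sub_self, zero_mul] at h
  have e2 : ∀ l : Fin m, (q p (J p j + J p l) - q p (J p j - J p l)) *
      (q p (J p l + J p k) - q p (J p l - J p k)) +
      (q p (J p j + -J p l) - q p (J p j - -J p l)) *
      (q p (-J p l + J p k) - q p (-J p l - J p k)) =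
      2 * ((q p (J p j + J p l) - q p (J p j - J p l)) *
      (q p (J p l + J p k) - q p (J p l - J p k))) := by
    intro l
    have e3 : q p (-J p l + J p k) = q p (J p l - J p k) := by
      rw [← q_even h1]; congr 1; ring
    have e4 : q p (-J p l - J p k) = q p (J p l + J p k) := by
      rw [← q_even h1]; congr 1; ring
    rw [e3, e4, sub_neg_eq_add, ← sub_eq_add_neg]; ring
  rw [Finset.sum_congr rfl (fun l _ => e2 l), ← Finset.mul_sum] at h
  split_ifs at h ⊢ <;> linarith

lemma sum_BB {m : ℕ} (hm : p = 2 * m + 1) (j k : Fin m) :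
    ∑ l : Fin m, (q p (J p j + J p l) + q p (J p j - J p l)) *
      (q p (J p l + J p k) + q p (J p l - J p k)) =
      (if j = k then (p : ℤ) else 0) - 2 - 2 * q p (J p j) * q p (J p k) := by
  have hp2 : p ≠ 2 := by omega
  have e : ∀ c : ZMod p, (q p (J p j + c) + q p (J p j - c)) * (q p (c + J p k) + q p (c - J p k)) =
      q p (J p j + c) * q p (J p k + c) + q p (J p j + c) * q p (-J p k + c)
      + q p (-J p j + c) * q p (J p k + c) + q p (-J p j + c) * q p (-J p k + c) := by
    intro c
    have e1 : q p (J p j - c) = q p (-J p j + c) := by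
      rw [← q_even h1]; congr 1; ring
    rw [e1, add_comm c (J p k), sub_eq_add_neg c (J p k), add_comm c (-J p k)]; ring
  have h := fold m hm (fun c => (q p (J p j + c) + q p (J p j - c)) * (q p (c + J p k) + q p (c - J p k)))
  have hbig : ∑ c : ZMod p, (q p (J p j + c) + q p (J p j - c)) * (q p (c + J p k) + q p (c - J p k)) =
      ((if J p j - J p k = 0 then (p : ℤ) else 0) - 1) + ((if J p j - -J p k = 0 then (p : ℤ) else 0) - 1)
      + ((if -J p j - J p k = 0 then (p : ℤ) else 0) - 1)
      + ((if -J p j - -J p k = 0 then (p : ℤ) else 0) - 1) := by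
    rw [Finset.sum_congr rfl (fun c _ => e c), Finset.sum_add_distrib, Finset.sum_add_distrib,
      Finset.sum_add_distrib, corr2 hp2, corr2 hp2, corr2 hp2, corr2 hp2]
  rw [hbig] at h
  have hjk := J_add_ne hm j k
  have i1 : (J p j - J p k = 0) = (j = k) := propext (J_sub hm j k)
  have i2 : J p j - -J p k ≠ 0 := by rwa [sub_neg_eq_add]
  have i3 : -J p j - J p k ≠ 0 := by
    intro h0; apply hjk; linear_combination -h0
  have i4 : (-J p j - -J p k = 0) = (j = k) := by
    rw [← i1]; apply propext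
    constructor
    · intro h0; linear_combination -h0
    · intro h0; linear_combination -h0
  rw [if_neg i2, if_neg i3] at h
  simp only [i1, i4, add_zero, sub_zero, zero_add, zero_sub, q_even h1] at h
  have e2 : ∀ l : Fin m, (q p (J p j + J p l) + q p (J p j - J p l)) *
      (q p (J p l + J p k) + q p (J p l - J p k)) +
      (q p (J p j + -J p l) + q p (J p j - -J p l)) *
      (q p (-J p l + J p k) + q p (-J p l - J p k)) =
      2 * ((q p (J p j + J p l) + q p (J p j - J p l)) *
      (q p (J p l + J p k) + q p (J p l - J p k))) := by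
    intro l
    have e3 : q p (-J p l + J p k) = q p (J p l - J p k) := by
      rw [← q_even h1]; congr 1; ring
    have e4 : q p (-J p l - J p k) = q p (J p l + J p k) := by
      rw [← q_even h1]; congr 1; ring
    rw [e3, e4, sub_neg_eq_add, ← sub_eq_add_neg]; ring
  rw [Finset.sum_congr rfl (fun l _ => e2 l), ← Finset.mul_sum] at h
  split_ifs at h ⊢ <;> linarith

lemma trace_q {m : ℕ} (hm : p = 2 * m + 1) : ∑ j : Fin m, q p (J p j + J p j) = 0 := by
  have e : ∀ j : Fin m, q p (J p j + J p j) = q p 2 * q p (J p j) := by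
    intro j; rw [← two_mul, q_mul]
  rw [Finset.sum_congr rfl (fun j _ => e j), ← Finset.mul_sum, sum_q h1 hm, mul_zero]

theorem det_A {m : ℕ} (hm : p = 2 * m + 1) : (Am p m ℤ).det = (-(p : ℤ)) ^ (m / 2) := by
  have hS : (Am p m ℝ).IsHermitian := by
    ext j k
    simp only [Am, conjTranspose_apply, Matrix.of_apply, star_trivial]
    rw [add_comm (J p k), ← q_even h1 (J p k - J p j), neg_sub]
  have hsq : Am p m ℝ * Am p m ℝ = (p : ℝ) • (1 : Matrix (Fin m) (Fin m) ℝ) := by
    ext j k
    rw [Matrix.mul_apply]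
    simp only [Am, Matrix.of_apply, Matrix.smul_apply, Matrix.one_apply, smul_eq_mul]
    have := congrArg (Int.cast : ℤ → ℝ) (sum_AA h1 hm j k)
    push_cast at this ⊢
    rw [this]
    split_ifs <;> simp
  have htr : (Am p m ℝ).trace = 0 := by
    simp only [Matrix.trace, Am, Matrix.diag_apply, Matrix.of_apply, sub_self, q_zero, sub_zero]
    have := congrArg (Int.cast : ℤ → ℝ) (trace_q h1 hm)
    push_cast at this ⊢
    exact this
  obtain ⟨k, hk, hd⟩ := det_of_sq _ hS (p : ℝ) (by exact_mod_cast (Fact.out : p.Prime).pos) hsq htr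
  have hm2 : m / 2 = k := by simp at hk; omega
  rw [hm2]
  have hmap : (Am p m ℤ).map (Int.castRingHom ℝ) = Am p m ℝ := by
    ext i j; simp [Am]
  have h := (Int.castRingHom ℝ).map_det (Am p m ℤ)
  rw [RingHom.mapMatrix_apply, hmap, hd] at h
  have h' : (((Am p m ℤ).det : ℤ) : ℝ) = (-(p : ℝ)) ^ k := h
  exact_mod_cast h'

/-- the four parameter determinant. -/
theorem det_four {m : ℕ} (hm : p = 2 * m + 1) {R : Type*} [CommRing R] (x y z w : R) :
    (Matrix.of fun j k : Fin m => x + Bm p m R j k + xv p m R j * y + xv p m R k * z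
      + xv p m R j * xv p m R k * w).det =
    (Bm p m R).det * ((1 - m * y) * (1 - m * z) - m ^ 2 * w * x) := by
  set V : Matrix (Fin m) (Fin 2) R := Matrix.of fun j i =>
    if i = 0 then - x * xv p m R j - y else - z * xv p m R j - w with hV
  set W : Matrix (Fin 2) (Fin m) R := Matrix.of fun i j => if i = 0 then 1 else xv p m R j with hW
  have hB1 : ∀ j : Fin m, ∑ k, Bm p m R j k = - xv p m R j := by
    intro j
    have := congrArg (Int.cast : ℤ → R) (sum_B hm (J p j))
    simp only [Bm, Matrix.of_apply, xv]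
    push_cast at this ⊢
    exact this
  have hBq : ∀ j : Fin m, ∑ k, Bm p m R j k * xv p m R k = - 1 := by
    intro j
    have := congrArg (Int.cast : ℤ → R) (sum_Bq h1 hm j)
    simp only [Bm, Matrix.of_apply, xv]
    push_cast at this ⊢
    exact this
  have hq : ∑ k : Fin m, xv p m R k = 0 := by
    have := congrArg (Int.cast : ℤ → R) (sum_q h1 hm)
    simp only [xv]
    push_cast at this ⊢
    exact this
  have hqq : ∑ k : Fin m, xv p m R k * xv p m R k = m := by
    rw [Finset.sum_congr rfl (fun k _ => xv_sq hm k)]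
    simp
  have hBV : ∀ j : Fin m, (Bm p m R * V) j 0 = x + xv p m R j * y := by
    intro j
    rw [Matrix.mul_apply, hV]
    simp only [Matrix.of_apply, if_true]
    have e : ∀ k, Bm p m R j k * (- x * xv p m R k - y) =
        (-x) * (Bm p m R j k * xv p m R k) - y * Bm p m R j k := by intro k; ring
    rw [Finset.sum_congr rfl (fun k _ => e k), Finset.sum_sub_distrib, ← Finset.mul_sum,
      ← Finset.mul_sum, hBq, hB1]
    ring
  have hBV1 : ∀ j : Fin m, (Bm p m R * V) j 1 = z + xv p m R j * w := by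
    intro j
    rw [Matrix.mul_apply, hV]
    simp only [Matrix.of_apply]
    have e : ∀ k, Bm p m R j k * (if (1 : Fin 2) = 0 then - x * xv p m R k - y
        else - z * xv p m R k - w) =
        (-z) * (Bm p m R j k * xv p m R k) - w * Bm p m R j k := by intro k; simp; ring
    rw [Finset.sum_congr rfl (fun k _ => e k), Finset.sum_sub_distrib, ← Finset.mul_sum,
      ← Finset.mul_sum, hBq, hB1]
    ring
  have hM : (Matrix.of fun j k : Fin m => x + Bm p m R j k + xv p m R j * y + xv p m R k * z
      + xv p m R j * xv p m R k * w) = Bm p m R * (1 + V * W) := by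
    rw [Matrix.mul_add, Matrix.mul_one, ← Matrix.mul_assoc]
    ext j k
    rw [Matrix.add_apply, Matrix.mul_apply (M := Bm p m R * V), Fin.sum_univ_two, hBV, hBV1, hW]
    simp only [Matrix.of_apply, if_true]
    rw [if_neg (by decide)]
    ring
  have hWV : ((1 : Matrix (Fin 2) (Fin 2) R) + W * V) = !![1 - m * y, - m * w; - m * x, 1 - m * z] := by
    ext i j
    fin_cases i <;> fin_cases j <;>
      simp only [Matrix.add_apply, Matrix.mul_apply, hV, hW, Matrix.of_apply, Fin.zero_eta, Fin.isValue,
        Matrix.cons_val', Matrix.cons_val_zero, Matrix.cons_val_one, if_true, Fin.mk_one,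
        Matrix.cons_val_fin_one]
    · have e : ∀ k : Fin m, (1 : R) * (- x * xv p m R k - y) = (-x) * xv p m R k - y := by intro k; ring
      rw [Finset.sum_congr rfl (fun k _ => e k), Finset.sum_sub_distrib, ← Finset.mul_sum, hq]
      simp
      ring
    · have e : ∀ k : Fin m, (1 : R) * (if (1 : Fin 2) = 0 then - x * xv p m R k - y
        else - z * xv p m R k - w) = (-z) * xv p m R k - w := by intro k; simp
      rw [Finset.sum_congr rfl (fun k _ => e k), Finset.sum_sub_distrib, ← Finset.mul_sum, hq]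
      simp
    · have e : ∀ k : Fin m, (if (1 : Fin 2) = 0 then (1 : R) else xv p m R k) *
          (- x * xv p m R k - y) = (-x) * (xv p m R k * xv p m R k) - y * xv p m R k := by
        intro k; simp; ring
      rw [Finset.sum_congr rfl (fun k _ => e k), Finset.sum_sub_distrib, ← Finset.mul_sum,
        ← Finset.mul_sum, hq, hqq]
      simp
      ring
    · have e : ∀ k : Fin m, (if (1 : Fin 2) = 0 then (1 : R) else xv p m R k) *
          (if (1 : Fin 2) = 0 then - x * xv p m R k - y else - z * xv p m R k - w) =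
          (-z) * (xv p m R k * xv p m R k) - w * xv p m R k := by
        intro k; simp; ring
      rw [Finset.sum_congr rfl (fun k _ => e k), Finset.sum_sub_distrib, ← Finset.mul_sum,
        ← Finset.mul_sum, hq, hqq]
      simp
      ring
  rw [hM, Matrix.det_mul, Matrix.det_one_add_mul_comm, hWV, Matrix.det_fin_two_of]
  ring

theorem det_B {m : ℕ} (hm : p = 2 * m + 1) : (Bm p m ℤ).det = -(-(p : ℤ)) ^ (m / 2 - 1) := by
  have hp : p.Prime := Fact.out
  have hm2 : 2 ≤ m := by
    have := hp.two_le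
    omega
  set s := Real.sqrt p with hs
  have hss : s * s = p := Real.mul_self_sqrt (by positivity)
  have hn : (m : ℝ) ≠ 0 := by
    have : m ≠ 0 := by omega
    exact_mod_cast this
  have hpm : (p : ℝ) = 2 * m + 1 := by exact_mod_cast hm
  have hB1 : ∀ j : Fin m, ∑ k, Bm p m ℝ j k = - xv p m ℝ j := by
    intro j
    have := congrArg (Int.cast : ℤ → ℝ) (sum_B hm (J p j))
    simp only [Bm, Matrix.of_apply, xv]
    push_cast at this ⊢
    exact this
  have hBq : ∀ j : Fin m, ∑ k, Bm p m ℝ j k * xv p m ℝ k = - 1 := by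
    intro j
    have := congrArg (Int.cast : ℤ → ℝ) (sum_Bq h1 hm j)
    simp only [Bm, Matrix.of_apply, xv]
    push_cast at this ⊢
    exact this
  have hBB : ∀ j k : Fin m, ∑ l, Bm p m ℝ j l * Bm p m ℝ l k =
      (if j = k then (p : ℝ) else 0) - 2 - 2 * xv p m ℝ j * xv p m ℝ k := by
    intro j k
    have := congrArg (Int.cast : ℤ → ℝ) (sum_BB h1 hm j k)
    simp only [Bm, Matrix.of_apply, xv]
    push_cast at this ⊢
    exact this
  have hq : ∑ k : Fin m, xv p m ℝ k = 0 := by
    have := congrArg (Int.cast : ℤ → ℝ) (sum_q h1 hm)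
    simp only [xv]
    push_cast at this ⊢
    exact this
  have hsymm : ∀ j k : Fin m, Bm p m ℝ j k = Bm p m ℝ k j := by
    intro j k
    simp only [Bm, Matrix.of_apply]
    rw [add_comm (J p k), ← q_even h1 (J p k - J p j), neg_sub]
  obtain ⟨u, hu⟩ : ∃ u : ℝ, m * u = 1 := ⟨1 / m, by field_simp⟩
  set M := (Matrix.of fun j k : Fin m => (s * u) + Bm p m ℝ j k + xv p m ℝ j * u
      + xv p m ℝ k * u + xv p m ℝ j * xv p m ℝ k * (-s * u)) with hM
  have hMdet : M.det = (Bm p m ℝ).det * p := by
    rw [hM, det_four h1 hm]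
    congr 1
    linear_combination (m * u) ^ 2 * hss + (p * (m * u + 1) + (m * u - 1)) * hu
  have hS : M.IsHermitian := by
    ext j k
    simp only [hM, conjTranspose_apply, Matrix.of_apply, star_trivial]
    rw [hsymm]; ring
  have htr : M.trace = 0 := by
    simp only [Matrix.trace, hM, Matrix.diag_apply, Matrix.of_apply]
    have e0 : ∑ j : Fin m, Bm p m ℝ j j = 0 := by
      simp only [Bm, Matrix.of_apply, sub_self, q_zero, add_zero]
      have := congrArg (Int.cast : ℤ → ℝ) (trace_q h1 hm)
      push_cast at this ⊢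
      exact this
    have e : ∀ j : Fin m, (s * u) + Bm p m ℝ j j + xv p m ℝ j * u
      + xv p m ℝ j * u + xv p m ℝ j * xv p m ℝ j * (-s * u) =
      Bm p m ℝ j j + (2 * u) * xv p m ℝ j := by
      intro j
      rw [xv_sq hm]; ring
    rw [Finset.sum_congr rfl (fun j _ => e j), Finset.sum_add_distrib, e0, ← Finset.mul_sum, hq]
    simp
  have hsq : M * M = (p : ℝ) • (1 : Matrix (Fin m) (Fin m) ℝ) := by
    ext j k
    rw [Matrix.mul_apply]
    simp only [hM, Matrix.of_apply, Matrix.smul_apply, Matrix.one_apply, smul_eq_mul]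
    have hj := xv_sq (R := ℝ) hm j
    have hk := xv_sq (R := ℝ) hm k
    have hB1' : ∑ l, Bm p m ℝ l k = - xv p m ℝ k := by
      rw [← hB1 k]; exact Finset.sum_congr rfl (fun l _ => hsymm l k)
    have hBq' : ∑ l, Bm p m ℝ l k * xv p m ℝ l = - 1 := by
      rw [← hBq k]; exact Finset.sum_congr rfl (fun l _ => by rw [hsymm l k])
    have e : ∀ l : Fin m, (s * u + Bm p m ℝ j l + xv p m ℝ j * u + xv p m ℝ l * u
        + xv p m ℝ j * xv p m ℝ l * (-s * u)) * (s * u + Bm p m ℝ l k + xv p m ℝ l * u
        + xv p m ℝ k * u + xv p m ℝ l * xv p m ℝ k * (-s * u)) =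
        Bm p m ℝ j l * Bm p m ℝ l k + (s * u + xv p m ℝ k * u) * Bm p m ℝ j l
        + (u - xv p m ℝ k * s * u) * (Bm p m ℝ j l * xv p m ℝ l)
        + (s * u + xv p m ℝ j * u) * Bm p m ℝ l k
        + (u - xv p m ℝ j * s * u) * (Bm p m ℝ l k * xv p m ℝ l)
        + ((s * u + xv p m ℝ j * u) * (s * u + xv p m ℝ k * u)
          + (u - xv p m ℝ j * s * u) * (u - xv p m ℝ k * s * u))
        + ((s * u + xv p m ℝ j * u) * (u - xv p m ℝ k * s * u)
          + (u - xv p m ℝ j * s * u) * (s * u + xv p m ℝ k * u)) * xv p m ℝ l := by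
      intro l
      have hl := xv_sq (R := ℝ) hm l
      linear_combination ((u - xv p m ℝ j * s * u) * (u - xv p m ℝ k * s * u)) * hl
    rw [Finset.sum_congr rfl (fun l _ => e l)]
    simp only [Finset.sum_add_distrib, ← Finset.mul_sum, Finset.sum_const, Finset.card_univ,
      Fintype.card_fin, nsmul_eq_mul]
    rw [hBB, hB1, hBq, hB1', hBq', hq]
    have e2 : (1 + xv p m ℝ j * xv p m ℝ k) * (m * u ^ 2 * (s * s + 1) - 2 - 2 * u) = 0 := by
      linear_combination (1 + xv p m ℝ j * xv p m ℝ k) * (m * u ^ 2 * (hss + hpm)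
        + (2 * (m * u + 1) + 2 * u) * hu)
    have e3 : (p : ℝ) * (if j = k then (1 : ℝ) else 0) = if j = k then (p : ℝ) else 0 := by
      split_ifs <;> simp
    rw [e3]
    linear_combination e2
  obtain ⟨k, hk, hd⟩ := det_of_sq _ hS (p : ℝ) (by exact_mod_cast hp.pos) hsq htr
  have hm2' : m / 2 = k := by simp at hk; omega
  have hk1 : k = (k - 1) + 1 := by simp at hk; omega
  rw [hm2']
  have hmap : (Bm p m ℤ).map (Int.castRingHom ℝ) = Bm p m ℝ := by
    ext i j; simp [Bm]
  have h := (Int.castRingHom ℝ).map_det (Bm p m ℤ)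
  rw [RingHom.mapMatrix_apply, hmap] at h
  rw [hMdet] at hd
  have h' : (((Bm p m ℤ).det : ℤ) : ℝ) = (Bm p m ℝ).det := h
  rw [← h'] at hd
  have hd' : (Bm p m ℤ).det * (p : ℤ) = (-(p : ℤ)) ^ k := by exact_mod_cast hd
  rw [hk1, pow_succ] at hd'
  have hpz : (p : ℤ) ≠ 0 := by exact_mod_cast hp.ne_zero
  apply mul_right_cancel₀ hpz
  rw [hd']
  have : k - 1 + 1 - 1 = k - 1 := by omega
  ring

end one

end Pool.Agent.R945.LD
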