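import Mathlib
import Pool.Agent.R945.LD.One
import Pool.Agent.R441.CN.G

set_option autoImplicit false
set_option linter.unusedSectionVars false

namespace Pool.Agent.R945.LD

open Finset Matrix

variable {p : ℕ} [Fact p.Prime]

/-- a determinant modulo `4` -/
lemma det_mod_four {n : ℕ} (M : Matrix (Fin n) (Fin n) ℤ) (h : ∀ i j, i ≠ j → (2 : ℤ) ∣ M i j) :
    (4 : ℤ) ∣ M.det - ∏ i, M i i := by
  rw [Matrix.det_apply]
  rw [← Finset.add_sum_erase univ _ (Finset.mem_univ (1 : Equiv.Perm (Fin n)))]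
  have e1 : Equiv.Perm.sign (1 : Equiv.Perm (Fin n)) • ∏ i, M ((1 : Equiv.Perm (Fin n)) i) i = ∏ i, M i i := by
    simp
  rw [e1, add_sub_cancel_left]
  apply Finset.dvd_sum
  intro σ hσ
  have hσ1 : σ ≠ 1 := by simpa using hσ
  obtain ⟨a, ha⟩ : ∃ a, σ a ≠ a := by
    by_contra hcon
    push Not at hcon
    exact hσ1 (Equiv.ext hcon)
  have hb : σ (σ a) ≠ σ a := fun h => ha (σ.injective h)
  have hmem : σ a ∈ univ.erase a := Finset.mem_erase.mpr ⟨ha, Finset.mem_univ _⟩
  have hprod : (4 : ℤ) ∣ ∏ i, M (σ i) i := by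
    rw [← Finset.mul_prod_erase univ _ (Finset.mem_univ a), ← Finset.mul_prod_erase _ _ hmem]
    obtain ⟨u, hu⟩ := h (σ a) a ha
    obtain ⟨v, hv⟩ := h (σ (σ a)) (σ a) hb
    rw [hu, hv]
    exact ⟨u * (v * ∏ x ∈ (univ.erase a).erase (σ a), M (σ x) x), by ring⟩
  rw [Units.smul_def, smul_eq_mul]
  exact Dvd.dvd.mul_left hprod _

/-- product and sum of signs modulo `4` -/
lemma prod_pm_mod_four {ι : Type*} (s : Finset ι) (f : ι → ℤ) (hf : ∀ i ∈ s, f i = 1 ∨ f i = -1) :
    (4 : ℤ) ∣ ∏ i ∈ s, f i - (∑ i ∈ s, f i - s.card + 1) := by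
  classical
  induction s using Finset.induction_on with
  | empty => simp
  | insert a s ha ih =>
    have ih := ih (fun i hi => hf i (Finset.mem_insert_of_mem hi))
    rw [Finset.prod_insert ha, Finset.sum_insert ha, Finset.card_insert_of_notMem ha]
    have hpm : (∏ i ∈ s, f i = 1) ∨ (∏ i ∈ s, f i = -1) := by
      have : (∏ i ∈ s, f i) * (∏ i ∈ s, f i) = 1 := by
        rw [← Finset.prod_mul_distrib]
        apply Finset.prod_eq_one
        intro i hi
        rcases hf i (Finset.mem_insert_of_mem hi) with h | h <;> rw [h] <;> norm_num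
      rcases mul_self_eq_one_iff.mp this with h | h
      · left; exact h
      · right; exact h
    push_cast
    rcases hf a (Finset.mem_insert_self a s) with h | h <;> rcases hpm with h' | h' <;> rw [h'] at ih ⊢ <;> rw [h] <;> omega

section three

variable (h3 : p % 4 = 3)

include h3

lemma q_odd (a : ZMod p) : q p (-a) = - q p a := by
  rw [q_neg, q_neg_one_of_three h3]; ring

lemma sum_BBt {m : ℕ} (hm : p = 2 * m + 1) (j k : Fin m) :
    ∑ l : Fin m, (q p (J p j + J p l) + q p (J p j - J p l)) *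
      (q p (J p k + J p l) + q p (J p k - J p l)) =
      (if j = k then (p : ℤ) else 0) - 2 * q p (J p j) * q p (J p k) := by
  have hp2 : p ≠ 2 := by omega
  have e : ∀ c : ZMod p, (q p (J p j + c) + q p (J p j - c)) * (q p (J p k + c) + q p (J p k - c)) =
      q p (J p j + c) * q p (J p k + c) - q p (J p j + c) * q p (-J p k + c)
      - q p (-J p j + c) * q p (J p k + c) + q p (-J p j + c) * q p (-J p k + c) := by
    intro c
    have e1 : q p (J p j - c) = - q p (-J p j + c) := by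
      rw [← q_odd h3]; congr 1; ring
    have e2 : q p (J p k - c) = - q p (-J p k + c) := by
      rw [← q_odd h3]; congr 1; ring
    rw [e1, e2]; ring
  have h := fold m hm (fun c => (q p (J p j + c) + q p (J p j - c)) * (q p (J p k + c) + q p (J p k - c)))
  have hbig : ∑ c : ZMod p, (q p (J p j + c) + q p (J p j - c)) * (q p (J p k + c) + q p (J p k - c)) =
      ((if J p j - J p k = 0 then (p : ℤ) else 0) - 1) - ((if J p j - -J p k = 0 then (p : ℤ) else 0) - 1)
      - ((if -J p j - J p k = 0 then (p : ℤ) else 0) - 1)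
      + ((if -J p j - -J p k = 0 then (p : ℤ) else 0) - 1) := by
    rw [Finset.sum_congr rfl (fun c _ => e c), Finset.sum_add_distrib, Finset.sum_sub_distrib,
      Finset.sum_sub_distrib, corr2 hp2, corr2 hp2, corr2 hp2, corr2 hp2]
  rw [hbig] at h
  have hjk := J_add_ne hm j k
  have i1 : (J p j - J p k = 0) = (j = k) := propext (J_sub hm j k)
  have i2 : J p j - -J p k ≠ 0 := by rwa [sub_neg_eq_add]
  have i3 : -J p j - J p k ≠ 0 := by
    intro h0; apply hjk; linear_combination -h0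
  have i4 : (-J p j - -J p k = 0) = (j = k) := by
    rw [← i1]; apply propext
    constructor
    · intro h0; linear_combination -h0
    · intro h0; linear_combination -h0
  rw [if_neg i2, if_neg i3] at h
  simp only [i1, i4, add_zero, sub_zero, zero_sub] at h
  have e2 : ∀ l : Fin m, (q p (J p j + J p l) + q p (J p j - J p l)) *
      (q p (J p k + J p l) + q p (J p k - J p l)) +
      (q p (J p j + -J p l) + q p (J p j - -J p l)) *
      (q p (J p k + -J p l) + q p (J p k - -J p l)) =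
      2 * ((q p (J p j + J p l) + q p (J p j - J p l)) *
      (q p (J p k + J p l) + q p (J p k - J p l))) := by
    intro l
    rw [sub_neg_eq_add, sub_neg_eq_add, ← sub_eq_add_neg, ← sub_eq_add_neg]; ring
  rw [Finset.sum_congr rfl (fun l _ => e2 l), ← Finset.mul_sum] at h
  split_ifs at h ⊢ <;> linarith

/-- the square of the determinant -/
lemma det_B_sq {m : ℕ} (hm : p = 2 * m + 1) (hm0 : 0 < m) : (Bm p m ℤ).det ^ 2 = (p : ℤ) ^ (m - 1) := by
  have hpQ : (p : ℚ) ≠ 0 := by exact_mod_cast (Fact.out : p.Prime).ne_zero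
  have h1 : Bm p m ℚ * (Bm p m ℚ)ᵀ = (p : ℚ) • ((1 : Matrix (Fin m) (Fin m) ℚ) +
      replicateCol Unit (xv p m ℚ) * replicateRow Unit (fun j => (-2 / (p : ℚ)) * xv p m ℚ j)) := by
    ext j k
    rw [Matrix.mul_apply]
    simp only [Matrix.transpose_apply, Bm, Matrix.of_apply, Matrix.smul_apply, Matrix.add_apply,
      Matrix.one_apply, smul_eq_mul, Matrix.mul_apply, replicateCol_apply, replicateRow_apply,
      Finset.univ_unique, Finset.sum_singleton]
    have h := congrArg (Int.cast : ℤ → ℚ) (sum_BBt h3 hm j k)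
    push_cast at h ⊢
    rw [h]
    unfold xv
    split_ifs <;> field_simp <;> ring
  have h2 := congrArg Matrix.det h1
  rw [det_mul, det_transpose, det_smul, det_one_add_replicateCol_mul_replicateRow, Fintype.card_fin] at h2
  have h4 : (fun j => (-2 / (p : ℚ)) * xv p m ℚ j) ⬝ᵥ xv p m ℚ = -2 * m / p := by
    simp only [dotProduct, mul_assoc, xv_sq hm]
    simp
    ring
  rw [h4] at h2
  have hpm : (p : ℚ) = 2 * m + 1 := by exact_mod_cast hm
  have h5 : (p : ℚ) ^ m * (1 + -2 * m / p) = (p : ℚ) ^ (m - 1) := by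
    obtain ⟨s, rfl⟩ : ∃ s, m = s + 1 := ⟨m - 1, by omega⟩
    have e : (1 + -2 * ((s + 1 : ℕ) : ℚ) / p) = 1 / p := by
      field_simp
      rw [hpm]; ring
    rw [e, Nat.add_sub_cancel, pow_succ]
    field_simp
  rw [h5, ← sq] at h2
  have hmap : (Bm p m ℤ).map (Int.castRingHom ℚ) = Bm p m ℚ := by
    ext i j; simp [Bm]
  have h6 := (Int.castRingHom ℚ).map_det (Bm p m ℤ)
  rw [RingHom.mapMatrix_apply, hmap] at h6
  rw [← h6, eq_intCast] at h2
  exact_mod_cast h2

/-- the determinant of the sum of the three matrices -/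
lemma det_BX {m : ℕ} (hm : p = 2 * m + 1) :
    (Matrix.of fun j k : Fin m => Bm p m ℤ j k + xv p m ℤ j * xv p m ℤ k).det =
      (Bm p m ℤ).det * (1 - ∑ j, xv p m ℤ j) := by
  have h1 : (Matrix.of fun j k : Fin m => Bm p m ℤ j k + xv p m ℤ j * xv p m ℤ k) =
      Bm p m ℤ * (1 + replicateCol Unit (fun _ => (-1 : ℤ)) * replicateRow Unit (xv p m ℤ)) := by
    rw [Matrix.mul_add, Matrix.mul_one, ← Matrix.mul_assoc]
    ext j k
    rw [Matrix.of_apply, Matrix.add_apply]
    congr 1
    rw [Matrix.mul_apply]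
    simp only [Finset.univ_unique, Finset.sum_singleton, replicateRow_apply, Matrix.mul_apply,
      replicateCol_apply, mul_neg, mul_one, Finset.sum_neg_distrib]
    have h := sum_B hm (J p j)
    simp only [Bm, Matrix.of_apply, xv, Int.cast_id]
    rw [h]; ring
  rw [h1, det_mul, det_one_add_replicateCol_mul_replicateRow]
  congr 1
  simp only [dotProduct, mul_neg, mul_one, Finset.sum_neg_distrib]
  ring

/-- parity structure of the diagonal and off-diagonal entries -/
lemma B_mod {m : ℕ} (hm : p = 2 * m + 1) : (4 : ℤ) ∣ (Bm p m ℤ).det - q p 2 * (∑ j, xv p m ℤ j - m + 1) := by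
  have hp2 : p ≠ 2 := by omega
  have hpm : ∀ a : ZMod p, a ≠ 0 → q p a = 1 ∨ q p a = -1 := by
    intro a ha
    rcases mul_self_eq_one_iff.mp (q_sq ha) with h | h
    · left; exact h
    · right; exact h
  have h1 := det_mod_four (Bm p m ℤ) (by
    intro i j hij
    simp only [Bm, Matrix.of_apply, Int.cast_id]
    have h2 : J p i + J p j ≠ 0 := J_add_ne hm i j
    have h4 : J p i - J p j ≠ 0 := by
      rw [Ne, J_sub hm i j]; exact hij
    rcases hpm _ h2 with h | h <;> rcases hpm _ h4 with h' | h' <;> rw [h, h'] <;> norm_num)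
  have h2 : ∏ i, Bm p m ℤ i i = q p 2 ^ m * ∏ i, xv p m ℤ i := by
    have : ∀ i : Fin m, Bm p m ℤ i i = q p 2 * xv p m ℤ i := by
      intro i
      simp only [Bm, Matrix.of_apply, Int.cast_id, sub_self, q_zero, add_zero, xv]
      rw [← two_mul, q_mul]
    rw [Finset.prod_congr rfl (fun i _ => this i), Finset.prod_mul_distrib, Finset.prod_const,
      Finset.card_univ, Fintype.card_fin]
  have hodd : Odd m := by rw [Nat.odd_iff]; omega
  have h4 : q p 2 ^ m = q p 2 := by
    obtain ⟨s, hs⟩ := hodd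
    rw [hs, pow_succ, pow_mul, sq, q_sq (two_ne hp2), one_pow, one_mul]
  have h5 := prod_pm_mod_four (univ : Finset (Fin m)) (fun j => xv p m ℤ j) (by
    intro i _
    exact hpm _ (J_ne hm i))
  rw [Finset.card_univ, Fintype.card_fin] at h5
  rw [h2, h4] at h1
  have h6 : (4 : ℤ) ∣ q p 2 * (∏ i, xv p m ℤ i - (∑ i, xv p m ℤ i - m + 1)) := Dvd.dvd.mul_left h5 _
  have := dvd_add h1 h6
  rw [show (Bm p m ℤ).det - q p 2 * ∏ i, xv p m ℤ i + q p 2 * (∏ i, xv p m ℤ i - (∑ i, xv p m ℤ i - m + 1)) =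
    (Bm p m ℤ).det - q p 2 * (∑ j, xv p m ℤ j - m + 1) by ring] at this
  exact this

/-- the determinant in terms of the half sum `(2 - q 2) h` -/
theorem det_B_three {m : ℕ} (hm : p = 2 * m + 1) (hm1 : 1 < m) (h : ℕ)
    (hS : ∑ j, xv p m ℤ j = (2 - q p 2) * h) :
    (Bm p m ℤ).det = (-1) ^ ((h - 1) / 2) * (p : ℤ) ^ ((p - 3) / 4) := by
  have hp2 : p ≠ 2 := by omega
  have hsq := det_B_sq h3 hm (by omega)
  have e1 : m - 1 = 2 * ((p - 3) / 4) := by omega
  rw [e1, mul_comm 2, pow_mul] at hsq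
  have hmod := B_mod h3 hm
  rw [hS] at hmod
  have hq2 : q p 2 = if p % 8 = 7 then 1 else -1 := by
    show quadraticChar (ZMod p) 2 = _
    rw [quadraticChar_two (ringChar_ne hp2), ZMod.card, ZMod.χ₈_nat_eq_if_mod_eight, if_neg (by omega)]
    by_cases h8 : p % 8 = 7
    · rw [if_pos (by omega), if_pos h8]
    · rw [if_neg (by omega), if_neg h8]
  -- parity of h
  have hpm : ∀ a : ZMod p, a ≠ 0 → q p a = 1 ∨ q p a = -1 := by
    intro a ha
    rcases mul_self_eq_one_iff.mp (q_sq ha) with h | h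
    · left; exact h
    · right; exact h
  have hpar : (2 : ℤ) ∣ ∑ j, xv p m ℤ j - m := by
    have : ∑ j, xv p m ℤ j - m = ∑ j : Fin m, (xv p m ℤ j - 1) := by
      rw [Finset.sum_sub_distrib]; simp
    rw [this]
    apply Finset.dvd_sum
    intro j _
    rcases hpm _ (J_ne hm j) with h | h
    · simp only [xv, h]; norm_num
    · simp only [xv, h]; norm_num
  rw [hS] at hpar
  have hh : h % 2 = 1 := by
    rw [hq2] at hpar
    split_ifs at hpar <;> omega
  obtain ⟨k, hk⟩ : ∃ k, h = 2 * k + 1 := ⟨h / 2, by omega⟩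
  have e2 : (h - 1) / 2 = k := by omega
  rw [e2]
  set P : ℤ := (p : ℤ) ^ ((p - 3) / 4) with hP
  have hP4 : (4 : ℤ) ∣ P - (-1) ^ ((p - 3) / 4) := by
    have : (4 : ℤ) ∣ (p : ℤ) - (-1) := by omega
    exact this.trans (sub_dvd_pow_sub_pow _ _ _)
  have hk4 : (4 : ℤ) ∣ (-1) ^ k - (2 * k + 1) := by
    rcases Nat.even_or_odd k with ⟨s, hs⟩ | ⟨s, hs⟩
    · rw [Even.neg_one_pow ⟨s, hs⟩]; omega
    · rw [Odd.neg_one_pow ⟨s, hs⟩]; omega
  have hcase : (Bm p m ℤ).det = P ∨ (Bm p m ℤ).det = -P := sq_eq_sq_iff_eq_or_eq_neg.mp hsq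
  have hkk : ((-1 : ℤ)) ^ k = 1 ∨ ((-1 : ℤ)) ^ k = -1 := neg_one_pow_eq_or ℤ k
  rw [hq2, hk] at hmod
  by_cases h8 : p % 8 = 7
  · rw [if_pos h8] at hmod
    have hodd : Odd ((p - 3) / 4) := by rw [Nat.odd_iff]; omega
    rw [hodd.neg_one_pow] at hP4
    push_cast at hmod
    rcases hcase with hc | hc <;> rcases hkk with hk' | hk' <;> rw [hc] at hmod ⊢ <;> rw [hk'] at hk4 ⊢
    · ring
    · exfalso; omega
    · exfalso; omega
    · ring
  · rw [if_neg h8] at hmod
    have heven : Even ((p - 3) / 4) := by rw [Nat.even_iff]; omega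
    rw [heven.neg_one_pow] at hP4
    push_cast at hmod
    rcases hcase with hc | hc <;> rcases hkk with hk' | hk' <;> rw [hc] at hmod ⊢ <;> rw [hk'] at hk4 ⊢
    · ring
    · exfalso; omega
    · exfalso; omega
    · ring

end three

end Pool.Agent.R945.LD
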