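import Mathlib

set_option autoImplicit false

namespace Pool.Agent.R945.LD

open Finset Polynomial

lemma newton3 {σ K : Type*} [Fintype σ] [DecidableEq σ] [Field K] [CharZero K] (f : σ → K) (N : ℕ)
    (hN : Fintype.card σ = N) (h3 : 3 ≤ N) :
    (∏ k, (X - C (f k))).coeff (N - 1) = - ∑ k, f k ∧
    2 * (∏ k, (X - C (f k))).coeff (N - 2) = (∑ k, f k) ^ 2 - ∑ k, f k ^ 2 ∧
    6 * (∏ k, (X - C (f k))).coeff (N - 3) =
      - ((∑ k, f k) ^ 3 - 3 * (∑ k, f k) * (∑ k, f k ^ 2) + 2 * ∑ k, f k ^ 3) := by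
  classical
  have hcoef : ∀ k ≤ N, (∏ k, (X - C (f k))).coeff k =
      (-1) ^ (N - k) * ((univ : Finset σ).val.map f).esymm (N - k) := by
    intro k hk
    have h := Multiset.prod_X_sub_C_coeff ((univ : Finset σ).val.map f) (k := k) (by
      simp [hN]; exact hk)
    simp only [Multiset.map_map, Multiset.card_map, Finset.card_val, Finset.card_univ, hN] at h
    exact h
  have he : ∀ n, ((univ : Finset σ).val.map f).esymm n =
      MvPolynomial.aeval f (MvPolynomial.esymm σ K n) := fun n =>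
    (MvPolynomial.aeval_esymm_eq_multiset_esymm σ K n f).symm
  have hp : ∀ n, MvPolynomial.aeval f (MvPolynomial.psum σ K n) = ∑ k, f k ^ n := by
    intro n
    simp [MvPolynomial.psum]
  have n1 := congrArg (MvPolynomial.aeval f) (MvPolynomial.mul_esymm_eq_sum σ K 1)
  have n2 := congrArg (MvPolynomial.aeval f) (MvPolynomial.mul_esymm_eq_sum σ K 2)
  have n3 := congrArg (MvPolynomial.aeval f) (MvPolynomial.mul_esymm_eq_sum σ K 3)
  have a1 : {a ∈ antidiagonal 1 | a.1 < 1} = ({(0, 1)} : Finset (ℕ × ℕ)) := by decide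
  have a2 : {a ∈ antidiagonal 2 | a.1 < 2} = ({(0, 2), (1, 1)} : Finset (ℕ × ℕ)) := by decide
  have a3 : {a ∈ antidiagonal 3 | a.1 < 3} = ({(0, 3), (1, 2), (2, 1)} : Finset (ℕ × ℕ)) := by decide
  rw [a1] at n1
  rw [a2] at n2
  rw [a3] at n3
  have b2 : ((0, 2) : ℕ × ℕ) ≠ (1, 1) := by decide
  have b3 : ((0, 3) : ℕ × ℕ) ∉ ({(1, 2), (2, 1)} : Finset (ℕ × ℕ)) := by decide
  have b4 : ((1, 2) : ℕ × ℕ) ≠ (2, 1) := by decide
  rw [Finset.sum_singleton] at n1
  rw [Finset.sum_pair b2] at n2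
  rw [Finset.sum_insert b3, Finset.sum_pair b4] at n3
  simp only [map_mul, map_add, map_pow, map_neg, map_one, map_natCast, hp, ← he] at n1 n2 n3
  have e0 : ((univ : Finset σ).val.map f).esymm 0 = 1 := by
    rw [he]; simp
  rw [e0] at n1 n2 n3
  have c1 := hcoef (N - 1) (by omega)
  have c2 := hcoef (N - 2) (by omega)
  have c3 := hcoef (N - 3) (by omega)
  rw [show N - (N - 1) = 1 by omega] at c1
  rw [show N - (N - 2) = 2 by omega] at c2
  rw [show N - (N - 3) = 3 by omega] at c3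
  rw [c1, c2, c3]
  set E1 := ((univ : Finset σ).val.map f).esymm 1
  set E2 := ((univ : Finset σ).val.map f).esymm 2
  set E3 := ((univ : Finset σ).val.map f).esymm 3
  simp only [pow_one] at n1 n2 n3
  norm_num at n1 n2 n3
  set p1 := ∑ k, f k
  set p2 := ∑ k, f k ^ 2
  set p3 := ∑ k, f k ^ 3
  refine ⟨?_, ?_, ?_⟩
  · linear_combination -n1
  · linear_combination n2 + p1 * n1
  · linear_combination -2 * n3 - p1 * n2 + (2 * p2 - p1 ^ 2) * n1

end Pool.Agent.R945.LD
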