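import Mathlib
import Pool.Agent.Helper184.Chapman
import Pool.Agent.R945.LD.Newt

set_option autoImplicit false

namespace Pool.Agent.R945.LD

open Finset Polynomial Pool.Agent.Helper184.Chapman

variable {p : ℕ} [Fact p.Prime] {K : Type*} [Field K]

/-- the points `χ(k) ψ(k)` -/
noncomputable def pt (ψ : AddChar (ZMod p) K) (k : ZMod p) : K := chi p K k * ψ k

/-- the polynomial with roots `χ(k) ψ(k)`, `k ≠ 0`. -/
noncomputable def PP (ψ : AddChar (ZMod p) K) : K[X] := ∏ k ∈ univ.erase (0 : ZMod p), (X - C (pt ψ k))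

section facts

variable (h3 : p % 4 = 3) (m : ℕ) (hm : p = 2 * m + 1) (ψ : AddChar (ZMod p) K)
  (hψ : ψ.IsPrimitive)

include h3 hψ in
lemma g_sq (h2 : (2 : K) ≠ 0) : gaussSum (chi p K) ψ ^ 2 = - (p : K) := by
  have e := gaussSum_sq (χ := chi p K) (chi_ne_one h3 h2) chi_quad hψ
  rw [chi_neg h3, ZMod.card] at e
  rw [e]; simp

lemma psi_pow (k : ZMod p) (n : ℕ) : ψ k ^ n = ψ ((n : ZMod p) * k) := by
  rw [← AddChar.map_nsmul_eq_pow, nsmul_eq_mul]

lemma pt_sq {k : ZMod p} (hk : k ≠ 0) : pt ψ k ^ 2 = ψ (2 * k) := by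
  have := chi_sq (K := K) hk
  have e := psi_pow ψ k 2
  push_cast at e
  rw [← e, pt]
  linear_combination (ψ k ^ 2) * this

lemma pt_even {k : ZMod p} (hk : k ≠ 0) (n : ℕ) : pt ψ k ^ (2 * n) = ψ k ^ (2 * n) := by
  rw [pow_mul, pow_mul, pt_sq ψ hk]
  congr 1
  have e := psi_pow ψ k 2
  push_cast at e
  exact e.symm

lemma pt_odd {k : ZMod p} (hk : k ≠ 0) (n : ℕ) :
    pt ψ k ^ (2 * n + 1) = chi p K k * ψ k ^ (2 * n + 1) := by
  rw [pow_succ, pt_even ψ hk, pow_succ, pt]; ring

include hm in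
lemma psi_p (k : ZMod p) : ψ k ^ (2 * m + 1) = 1 := by
  rw [psi_pow]
  have hp0 : ((2 * m + 1 : ℕ) : ZMod p) = 0 := by
    rw [← hm]; simp
  rw [hp0, zero_mul, AddChar.map_zero_eq_one]

include hm in
lemma card_S : (univ.erase (0 : ZMod p)).card = 2 * m := by
  rw [Finset.card_erase_of_mem (Finset.mem_univ _), Finset.card_univ, ZMod.card]
  omega

include hψ in
lemma psi_inj (k : ZMod p) (hk : ψ k = 1) : k = 0 := (hψ.zmod_char_eq_one_iff p k).mp hk

lemma PP_monic : (PP ψ).Monic := by
  rw [PP]; exact monic_prod_of_monic _ _ (fun k _ => monic_X_sub_C _)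

include hm in
lemma PP_deg : (PP ψ).natDegree = 2 * m := by
  rw [PP, natDegree_prod_of_monic _ _ (fun k _ => monic_X_sub_C _)]
  simp [card_S m hm]

lemma PP_root {k : ZMod p} (hk : k ≠ 0) : (PP ψ).eval (pt ψ k) = 0 := by
  rw [PP, eval_prod]
  exact Finset.prod_eq_zero (Finset.mem_erase.mpr ⟨hk, Finset.mem_univ k⟩) (by simp)

include hm hψ in
lemma pt_inj : Set.InjOn (pt ψ) (univ.erase (0 : ZMod p)) := by
  have hp2 : p ≠ 2 := by omega
  have h6 : (2 : ZMod p) ≠ 0 := by
    intro h
    have : ((2 : ℕ) : ZMod p) = 0 := by exact_mod_cast h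
    rw [ZMod.natCast_eq_zero_iff] at this
    exact hp2 ((Nat.prime_dvd_prime_iff_eq (Fact.out : p.Prime) Nat.prime_two).mp this)
  intro k hk l hl hkl
  have hk0 : k ≠ 0 := by simpa using hk
  have hl0 : l ≠ 0 := by simpa using hl
  have e : ψ (2 * k) = ψ (2 * l) := by rw [← pt_sq ψ hk0, ← pt_sq ψ hl0, hkl]
  have e2 : ψ (2 * k - 2 * l) = 1 := by
    rw [AddChar.map_sub_eq_div, e, div_self]
    intro h0
    have := AddChar.map_zero_eq_one ψ
    rw [← add_neg_cancel (2 * l), AddChar.map_add_eq_mul, h0, zero_mul] at this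
    exact zero_ne_one this
  have e3 := psi_inj ψ hψ _ e2
  have e4 : 2 * (k - l) = 0 := by linear_combination e3
  rcases mul_eq_zero.mp e4 with h | h
  · exact absurd h h6
  · exact sub_eq_zero.mp h

include h3 hm in
lemma PP_neg_one : (PP ψ).eval (-1) = - (PP ψ).eval 1 := by
  have hp2 : p ≠ 2 := by omega
  have hP1 : (PP ψ).eval 1 = ∏ k ∈ univ.erase (0 : ZMod p), (1 - pt ψ k) := by
    rw [PP, eval_prod]; simp
  have e1 : (PP ψ).eval (-1) = ∏ k ∈ univ.erase (0 : ZMod p), (-1 - pt ψ k) := by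
    rw [PP, eval_prod]; simp
  have e2 : ∏ k ∈ univ.erase (0 : ZMod p), (-1 - pt ψ k) =
      ∏ k ∈ univ.erase (0 : ZMod p), (1 + pt ψ k) := by
    have : ∀ k ∈ univ.erase (0 : ZMod p), (-1 - pt ψ k) = (-1) * (1 + pt ψ k) := by
      intro k _; ring
    rw [Finset.prod_congr rfl this, Finset.prod_mul_distrib, Finset.prod_const, card_S m hm]
    simp
  have e3 : ∏ k ∈ univ.erase (0 : ZMod p), (1 + pt ψ k) =
      ∏ k ∈ univ.erase (0 : ZMod p), (1 + pt ψ (-k)) := by
    apply Finset.prod_bij (fun k _ => -k)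
    · intro k hk; simpa using hk
    · intro k _ l _ h; exact neg_injective h
    · intro k hk; exact ⟨-k, by simpa using hk, by simp⟩
    · intro k _; simp
  have e4 : ∀ k ∈ univ.erase (0 : ZMod p), (1 + pt ψ (-k)) =
      (-1) * chi p K k * ψ (-k) * (1 - pt ψ k) := by
    intro k hk
    have hk0 : k ≠ 0 := by simpa using hk
    have e5 := chi_sq (K := K) hk0
    have e6 : ψ (-k) * ψ k = 1 := by
      rw [← AddChar.map_add_eq_mul]; simp
    rw [pt, pt]
    rw [chi_neg h3]
    linear_combination (-1 : K) * e5 * (1 : K) - (chi p K k * chi p K k) * e6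
  rw [e1, e2, e3, Finset.prod_congr rfl e4, Finset.prod_mul_distrib, Finset.prod_mul_distrib,
    Finset.prod_mul_distrib, Finset.prod_const, card_S m hm, prod_chi h3, prod_psi hp2, hP1]
  simp

include h3 hm hψ in
/-- `P(1)^2 = -p`. -/
lemma PP_one_sq : (PP ψ).eval 1 ^ 2 = - (p : K) := by
  have hp : p.Prime := Fact.out
  have hp2 : p ≠ 2 := by omega
  have h6 : (2 : ZMod p) ≠ 0 := by
    intro h
    have : ((2 : ℕ) : ZMod p) = 0 := by exact_mod_cast h
    rw [ZMod.natCast_eq_zero_iff] at this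
    exact hp2 ((Nat.prime_dvd_prime_iff_eq (Fact.out : p.Prime) Nat.prime_two).mp this)
  have hP1 : (PP ψ).eval 1 = ∏ k ∈ univ.erase (0 : ZMod p), (1 - pt ψ k) := by
    rw [PP, eval_prod]; simp
  have e1 : (PP ψ).eval (-1) = ∏ k ∈ univ.erase (0 : ZMod p), (-1 - pt ψ k) := by
    rw [PP, eval_prod]; simp
  have e2 : (PP ψ).eval 1 * (PP ψ).eval (-1) = p := by
    rw [hP1, e1, ← Finset.prod_mul_distrib]
    have e3 : ∀ k ∈ univ.erase (0 : ZMod p), (1 - pt ψ k) * (-1 - pt ψ k) =
        (-1) * (1 - ψ (2 * k)) := by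
      intro k hk
      have hk0 : k ≠ 0 := by simpa using hk
      rw [← pt_sq ψ hk0]; ring
    rw [Finset.prod_congr rfl e3, Finset.prod_mul_distrib, Finset.prod_const, card_S m hm]
    have e4 : ∏ k ∈ univ.erase (0 : ZMod p), (1 - ψ (2 * k)) =
        ∏ k ∈ univ.erase (0 : ZMod p), (1 - ψ k) := by
      apply Finset.prod_bij (fun k _ => 2 * k)
      · intro k hk
        have hk0 : k ≠ 0 := by simpa using hk
        simp [h6, hk0]
      · intro k _ l _ h; exact mul_left_cancel₀ h6 h
      · intro k hk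
        have hk0 : k ≠ 0 := by simpa using hk
        refine ⟨2⁻¹ * k, ?_, ?_⟩
        · simp [h6, hk0]
        · rw [← mul_assoc, mul_inv_cancel₀ h6, one_mul]
      · intro k _; rfl
    have e5 : ∏ k ∈ univ.erase (0 : ZMod p), (1 - ψ k) = p := by
      set ζ := ψ 1 with hζ
      have hζk : ∀ k : ZMod p, ψ k = ζ ^ k.val := by
        intro k
        rw [hζ, psi_pow, mul_one, ZMod.natCast_val, ZMod.cast_id', id]
      have hprim : IsPrimitiveRoot ζ p := by
        refine IsPrimitiveRoot.mk_of_lt ζ hp.pos ?_ ?_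
        · rw [hζ, psi_pow]; simp
        · intro l hl0 hlp h
          rw [hζ, psi_pow, mul_one] at h
          have := psi_inj ψ hψ _ h
          rw [ZMod.natCast_eq_zero_iff] at this
          exact absurd (Nat.le_of_dvd hl0 this) (by omega)
      rw [hm] at hprim
      have e6 := hprim.prod_one_sub_pow_eq_order
      have e7 : ∏ k ∈ range (2 * m), (1 - ζ ^ (k + 1)) =
          ∏ k ∈ univ.erase (0 : ZMod p), (1 - ψ k) := by
        apply Finset.prod_bij (fun (k : ℕ) _ => ((k + 1 : ℕ) : ZMod p))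
        · intro k hk
          rw [Finset.mem_range] at hk
          rw [Finset.mem_erase]
          refine ⟨?_, Finset.mem_univ _⟩
          intro h
          rw [ZMod.natCast_eq_zero_iff] at h
          have := Nat.le_of_dvd (by omega) h
          omega
        · intro a ha b hb hab
          rw [Finset.mem_range] at ha hb
          have := congrArg ZMod.val hab
          rw [ZMod.val_natCast_of_lt (by omega), ZMod.val_natCast_of_lt (by omega)] at this
          omega
        · intro b hb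
          have hb0 : b ≠ 0 := by simpa using hb
          have h1 : b.val ≠ 0 := by rwa [Ne, ZMod.val_eq_zero]
          have h2 := ZMod.val_lt b
          refine ⟨b.val - 1, ?_, ?_⟩
          · rw [Finset.mem_range]; omega
          · have h3' : b.val - 1 + 1 = b.val := by omega
            rw [h3']
            simp
        · intro k hk
          rw [Finset.mem_range] at hk
          rw [hζk ((k + 1 : ℕ) : ZMod p), ZMod.val_natCast_of_lt (by omega)]
      rw [← e7, e6, hm]
      push_cast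
      ring
    rw [e4, e5]
    simp
  rw [PP_neg_one h3 m hm ψ] at e2
  linear_combination -e2

end facts

end Pool.Agent.R945.LD
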