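import Mathlib
import Pool.Agent.R945.LD.Core

set_option autoImplicit false
set_option linter.unusedSectionVars false

namespace Pool.Agent.R945.LD

open Finset Polynomial Pool.Agent.Helper184.Chapman

variable {p : ℕ} [Fact p.Prime] {K : Type*} [Field K]

section coeffs

variable [CharZero K] (h3 : p % 4 = 3) (m : ℕ) (hm : p = 2 * m + 1) (hm2 : 2 ≤ m)
  (ψ : AddChar (ZMod p) K) (hψ : ψ.IsPrimitive)

lemma PP_eq_subtype : PP ψ = ∏ k : {k : ZMod p // k ≠ 0}, (X - C (pt ψ k)) := by
  rw [PP]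
  apply Finset.prod_subtype
  intro x
  simp

lemma sum_eq_subtype (f : ZMod p → K) :
    ∑ k ∈ univ.erase (0 : ZMod p), f k = ∑ k : {k : ZMod p // k ≠ 0}, f k := by
  apply Finset.sum_subtype
  intro x
  simp

include h3 in
lemma pow1 : ∑ k ∈ univ.erase (0 : ZMod p), pt ψ k = gaussSum (chi p K) ψ := by
  rw [gaussSum, ← Finset.add_sum_erase univ _ (Finset.mem_univ (0 : ZMod p)), MulChar.map_zero]
  simp [pt]

include h3 hψ in
lemma pow2 : ∑ k ∈ univ.erase (0 : ZMod p), pt ψ k ^ 2 = -1 := by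
  have hp2 : p ≠ 2 := by rintro rfl; omega
  have h6 : (2 : ZMod p) ≠ 0 := by
    intro h
    have : ((2 : ℕ) : ZMod p) = 0 := by exact_mod_cast h
    rw [ZMod.natCast_eq_zero_iff] at this
    exact hp2 ((Nat.prime_dvd_prime_iff_eq (Fact.out : p.Prime) Nat.prime_two).mp this)
  have e : ∀ k ∈ univ.erase (0 : ZMod p), pt ψ k ^ 2 = ψ (k * 2) := by
    intro k hk
    have hk0 : k ≠ 0 := by simpa using hk
    rw [pt_sq ψ hk0, mul_comm]
  rw [Finset.sum_congr rfl e]
  have h := AddChar.sum_mulShift (2 : ZMod p) hψ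
  rw [if_neg h6, ← Finset.add_sum_erase univ _ (Finset.mem_univ (0 : ZMod p))] at h
  rw [zero_mul, AddChar.map_zero_eq_one] at h
  push_cast at h
  linear_combination h

include h3 in
lemma pow3 : ∑ k ∈ univ.erase (0 : ZMod p), pt ψ k ^ 3 = chi p K 3 * gaussSum (chi p K) ψ := by
  have h := gauss_shift (K := K) h3 two_ne_zero ψ 3
  rw [← h, ← Finset.add_sum_erase univ (fun k => chi p K k * ψ (3 * k)) (Finset.mem_univ (0 : ZMod p)),
    MulChar.map_zero, zero_mul, zero_add]
  apply Finset.sum_congr rfl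
  intro k hk
  have hk0 : k ≠ 0 := by simpa using hk
  have := pt_odd ψ hk0 1
  norm_num at this
  rw [this, psi_pow]
  norm_num

include h3 hm hm2 hψ in
lemma PP_coeffs : (PP ψ).coeff (2 * m - 1) = - gaussSum (chi p K) ψ ∧
    (PP ψ).coeff (2 * m - 2) = - (m : K) ∧
    3 * (PP ψ).coeff (2 * m - 3) = gaussSum (chi p K) ψ * (m - 1 - chi p K 3) := by
  have hcard : Fintype.card {k : ZMod p // k ≠ 0} = 2 * m := by
    rw [← card_S m hm, Fintype.card_subtype]
    congr 1
    ext x
    simp
  have h := newton3 (fun k : {k : ZMod p // k ≠ 0} => pt ψ k) (2 * m) hcard (by omega)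
  rw [← PP_eq_subtype, ← sum_eq_subtype (fun k => pt ψ k), ← sum_eq_subtype (fun k => pt ψ k ^ 2),
    ← sum_eq_subtype (fun k => pt ψ k ^ 3), pow1 h3, pow2 h3 ψ hψ, pow3 h3] at h
  obtain ⟨c1, c2, c3⟩ := h
  have hg := g_sq h3 ψ hψ (two_ne_zero (α := K))
  have hpm : (p : K) = 2 * m + 1 := by
    have := congrArg (Nat.cast : ℕ → K) hm
    push_cast at this; exact this
  refine ⟨c1, ?_, ?_⟩
  · have h2 : (2 : K) ≠ 0 := two_ne_zero
    apply mul_left_cancel₀ h2
    rw [c2]
    linear_combination hg - hpm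
  · have h2 : (2 : K) ≠ 0 := two_ne_zero
    apply mul_left_cancel₀ h2
    linear_combination c3 - gaussSum (chi p K) ψ * hg + gaussSum (chi p K) ψ * hpm

/-- the cubic `Q₁` -/
noncomputable def QQ (m : ℕ) (ψ : AddChar (ZMod p) K) : K[X] :=
  X ^ 3 + C (gaussSum (chi p K) ψ) * X ^ 2 - C ((m : K) + 1) * X - C (gaussSum (chi p K) ψ)

include h3 hm hm2 hψ in
lemma deg1 : (X ^ (2 * m + 1) - X * PP ψ : K[X]).natDegree ≤ 2 * m := by
  have hmon := (PP_monic ψ).coeff_natDegree
  rw [PP_deg m hm] at hmon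
  rw [natDegree_le_iff_coeff_eq_zero]
  intro n hn
  obtain ⟨n', rfl⟩ : ∃ n', n = n' + 1 := ⟨n - 1, by omega⟩
  rw [coeff_sub, coeff_X_pow, coeff_X_mul]
  by_cases h : n' = 2 * m
  · subst h; rw [hmon]; simp
  · rw [if_neg (by omega), coeff_eq_zero_of_natDegree_lt (by rw [PP_deg m hm]; omega)]
    simp

include h3 hm hm2 hψ in
lemma deg2 : (X ^ (2 * m + 3) - PP ψ * QQ m ψ : K[X]).natDegree ≤ 2 * m := by
  have hmon := (PP_monic ψ).coeff_natDegree
  rw [PP_deg m hm] at hmon
  obtain ⟨c1, c2, -⟩ := PP_coeffs h3 m hm hm2 ψ hψ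
  have hg := g_sq h3 ψ hψ (two_ne_zero (α := K))
  have hpm : (p : K) = 2 * m + 1 := by
    have := congrArg (Nat.cast : ℕ → K) hm
    push_cast at this; exact this
  have hz : ∀ n, 2 * m < n → (PP ψ).coeff n = 0 := fun n hn =>
    coeff_eq_zero_of_natDegree_lt (by rw [PP_deg m hm]; omega)
  rw [natDegree_le_iff_coeff_eq_zero]
  intro n hn
  obtain ⟨n', rfl⟩ : ∃ n', n = n' + 3 := ⟨n - 3, by omega⟩
  have e : (PP ψ * QQ m ψ).coeff (n' + 3) = (PP ψ).coeff n' +
      gaussSum (chi p K) ψ * (PP ψ).coeff (n' + 1) - (m + 1) * (PP ψ).coeff (n' + 2)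
      - gaussSum (chi p K) ψ * (PP ψ).coeff (n' + 3) := by
    have e1 : PP ψ * QQ m ψ = PP ψ * X ^ 3 + C (gaussSum (chi p K) ψ) * (PP ψ * X ^ 2)
        - C ((m : K) + 1) * (PP ψ * X) - C (gaussSum (chi p K) ψ) * PP ψ := by
      rw [QQ]; ring
    rw [e1, coeff_sub, coeff_sub, coeff_add, coeff_C_mul, coeff_C_mul, coeff_C_mul,
      coeff_mul_X_pow, show n' + 3 = (n' + 1) + 2 by ring, coeff_mul_X_pow,
      show n' + 1 + 2 = (n' + 2) + 1 by ring, coeff_mul_X]
  rw [coeff_sub, coeff_X_pow, e]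
  rcases Nat.lt_or_ge (2 * m) n' with h | h
  · rw [if_neg (by omega), hz n' h, hz _ (by omega), hz _ (by omega), hz _ (by omega)]
    simp
  · rcases Nat.eq_or_lt_of_le h with h | h
    · subst h
      rw [if_pos rfl, hmon, hz _ (by omega), hz _ (by omega), hz _ (by omega)]
      simp
    · rw [if_neg (by omega), hz (n' + 3) (by omega)]
      by_cases h4 : n' + 1 = 2 * m
      · have h5 : n' = 2 * m - 1 := by omega
        rw [h5, c1]
        rw [show 2 * m - 1 + 1 = 2 * m by omega, hmon, hz _ (by omega)]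
        ring
      · have h5 : n' = 2 * m - 2 := by omega
        rw [h5, c2]
        rw [show 2 * m - 2 + 1 = 2 * m - 1 by omega, c1, show 2 * m - 2 + 2 = 2 * m by omega, hmon]
        linear_combination hg - hpm

include h3 hm hm2 hψ in
/-- the polynomial identity for solutions of the Toeplitz system. -/
theorem core2 (v : ℕ → K) (b0 b1 : K)
    (hv : ∀ i ∈ range (m + 1), ∑ j ∈ range (m + 1), chi p K ((i : ZMod p) - (j : ZMod p)) * v j =
      if i = 0 then b0 else if i = 1 then b1 else 0) :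
    ∃ y : ℕ → K, ∑ j ∈ range (m + 1), C (v j) * X ^ (2 * j) -
      ∑ l ∈ range m, C (y l) * X ^ (2 * l + 1) =
      C (-(p : K)⁻¹ * chi p K 2 * gaussSum (chi p K) ψ) *
        (C b0 * (X ^ (2 * m + 1) - X * PP ψ) + C b1 * (X ^ (2 * m + 3) - PP ψ * QQ m ψ)) := by
  have hp : p.Prime := Fact.out
  have hp2 : p ≠ 2 := by rintro rfl; omega
  have h2 : (2 : K) ≠ 0 := two_ne_zero
  have hpK : (p : K) ≠ 0 := by exact_mod_cast hp.ne_zero
  set g : K := gaussSum (chi p K) ψ with hg
  set xval : ZMod p → K := fun k => ∑ j ∈ range (m + 1), v j * ψ k ^ (2 * j) with hx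
  set h : ZMod p → K := fun k => chi p K k * xval k with hh
  set hhat : ZMod p → K := fun i => (p : K)⁻¹ * ∑ k' : ZMod p, h k' * ψ (-(2 * i * k')) with hhh
  set a : K := - (p : K)⁻¹ * chi p K 2 * g with ha
  have hhat_eq : ∀ i : ZMod p, hhat i =
      - (p : K)⁻¹ * chi p K 2 * g * ∑ j ∈ range (m + 1), chi p K (i - (j : ZMod p)) * v j := by
    intro i
    have e1 : ∑ k' : ZMod p, h k' * ψ (-(2 * i * k')) =
        ∑ j ∈ range (m + 1), v j * (chi p K (2 * ((j : ZMod p) - i)) * g) := by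
      have : ∀ k' : ZMod p, h k' * ψ (-(2 * i * k')) =
          ∑ j ∈ range (m + 1), v j * (chi p K k' * ψ (2 * ((j : ZMod p) - i) * k')) := by
        intro k'
        rw [hh, hx]
        simp only
        rw [Finset.mul_sum, Finset.sum_mul]
        apply Finset.sum_congr rfl
        intro j _
        have e2 : ψ (2 * ((j : ZMod p) - i) * k') = ψ k' ^ (2 * j) * ψ (-(2 * i * k')) := by
          rw [psi_pow, ← AddChar.map_add_eq_mul]
          congr 1
          push_cast
          ring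
        rw [e2]; ring
      rw [Finset.sum_congr rfl (fun k' _ => this k'), Finset.sum_comm]
      apply Finset.sum_congr rfl
      intro j _
      rw [← Finset.mul_sum, gauss_shift h3 h2]
    rw [hhh]
    simp only
    rw [e1, Finset.mul_sum, Finset.mul_sum]
    apply Finset.sum_congr rfl
    intro j _
    have e3 : chi p K (2 * ((j : ZMod p) - i)) = - (chi p K 2 * chi p K (i - (j : ZMod p))) := by
      rw [map_mul, ← neg_sub i (j : ZMod p), chi_neg h3]; ring
    rw [e3]; ring
  have hhat_low : ∀ i ∈ range (m + 1), hhat (i : ZMod p) =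
      a * (if i = 0 then b0 else if i = 1 then b1 else 0) := by
    intro i hi
    rw [hhat_eq, hv i hi]
  set y : ℕ → K := fun l => hhat ((m + 1 + l : ℕ) : ZMod p) with hy
  have hinv : ∀ k : ZMod p, h k = a * (b0 + b1 * ψ k ^ 2) + ∑ l ∈ range m, y l * ψ k ^ (2 * l + 1) := by
    intro k
    have e1 := inversion hp2 hpK ψ hψ h k
    have e2 : ∑ i : ZMod p, hhat i * ψ (2 * i * k) = h k := e1
    rw [← e2, sum_zmod_range m hm (fun i => hhat i * ψ (2 * i * k))]
    congr 1
    · obtain ⟨m', rfl⟩ : ∃ m', m = m' + 1 := ⟨m - 1, by omega⟩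
      rw [Finset.sum_range_succ', Finset.sum_range_succ', Finset.sum_eq_zero]
      · rw [hhat_low 0 (by simp), hhat_low (0 + 1) (by simp), psi_pow]
        simp
        ring
      · intro b hb
        rw [Finset.mem_range] at hb
        rw [hhat_low (b + 1 + 1) (by rw [Finset.mem_range]; omega), if_neg (by omega),
          if_neg (by omega)]
        simp
    · apply Finset.sum_congr rfl
      intro l _
      rw [psi_pow]
      congr 2
      have hp0 : ((2 * m + 1 : ℕ) : ZMod p) = 0 := by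
        rw [← hm]; simp
      push_cast at hp0 ⊢
      linear_combination k * hp0
  refine ⟨y, ?_⟩
  set F : K[X] := ∑ j ∈ range (m + 1), C (v j) * X ^ (2 * j)
    - ∑ l ∈ range m, C (y l) * X ^ (2 * l + 1) with hF
  set R : K[X] := C a * (C b0 * (X ^ (2 * m + 1) - X * PP ψ)
    + C b1 * (X ^ (2 * m + 3) - PP ψ * QQ m ψ)) with hR
  have hFdeg : F.natDegree ≤ 2 * m := by
    rw [hF]
    refine (natDegree_sub_le_of_le (m := 2 * m) (n := 2 * m) ?_ ?_).trans (by simp)
    · apply natDegree_sum_le_of_forall_le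
      intro j hj
      rw [Finset.mem_range] at hj
      exact (natDegree_C_mul_X_pow_le _ _).trans (by omega)
    · apply natDegree_sum_le_of_forall_le
      intro j hj
      rw [Finset.mem_range] at hj
      exact (natDegree_C_mul_X_pow_le _ _).trans (by omega)
  have hRdeg : R.natDegree ≤ 2 * m := by
    rw [hR]
    refine (natDegree_C_mul_le _ _).trans ?_
    exact natDegree_add_le_of_degree_le
      ((natDegree_C_mul_le _ _).trans (deg1 h3 m hm hm2 ψ hψ))
      ((natDegree_C_mul_le _ _).trans (deg2 h3 m hm hm2 ψ hψ))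
  have hGdeg : (F - R).natDegree ≤ 2 * m :=
    (natDegree_sub_le_of_le hFdeg hRdeg).trans (by simp)
  have hGroot : ∀ k ∈ univ.erase (0 : ZMod p), (F - R).eval (pt ψ k) = 0 := by
    intro k hk
    have hk0 : k ≠ 0 := by simpa using hk
    have e1 := chi_sq (K := K) hk0
    have e2 := hinv k
    have hψp := psi_p m hm ψ k
    have e3 : F.eval (pt ψ k) = xval k - chi p K k * ∑ l ∈ range m, y l * ψ k ^ (2 * l + 1) := by
      rw [hF]
      simp only [eval_sub, eval_finsetSum, eval_mul, eval_C, eval_pow, eval_X]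
      rw [hx, Finset.mul_sum]
      congr 1
      · apply Finset.sum_congr rfl
        intro j _
        rw [pt_even ψ hk0]
      · apply Finset.sum_congr rfl
        intro l _
        rw [pt_odd ψ hk0]; ring
    have e4 : xval k = chi p K k * h k := by
      rw [hh]; simp only; linear_combination (-xval k) * e1
    have e5 : R.eval (pt ψ k) = a * chi p K k * (b0 + b1 * ψ k ^ 2) := by
      rw [hR]
      simp only [eval_sub, eval_mul, eval_C, eval_pow, eval_X, eval_add, PP_root ψ hk0]
      have e6 := pt_odd ψ hk0 m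
      have e7 := pt_odd ψ hk0 (m + 1)
      rw [hψp] at e6
      have e8 : ψ k ^ (2 * (m + 1) + 1) = ψ k ^ 2 := by
        rw [show 2 * (m + 1) + 1 = (2 * m + 1) + 2 by ring, pow_add, hψp, one_mul]
      rw [e8, show 2 * (m + 1) + 1 = 2 * m + 3 by ring] at e7
      rw [e6, e7]
      ring
    rw [eval_sub, e3, e4, e5, e2]
    ring
  have ee : ∀ n : ℕ, (-1 : K) ^ (2 * n) = 1 := fun n => by rw [pow_mul]; simp
  have eo : ∀ n : ℕ, (-1 : K) ^ (2 * n + 1) = -1 := fun n => by rw [pow_succ, ee]; simp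
  have hG1 : (F - R).eval 1 = (F - R).eval (-1) := by
    have e2 := hinv 0
    have e3 : h 0 = 0 := by rw [hh]; simp only; rw [MulChar.map_zero, zero_mul]
    rw [e3] at e2
    simp only [AddChar.map_zero_eq_one, one_pow, mul_one] at e2
    have e4 : (-1 : K) ^ (2 * m + 3) = -1 := by
      rw [show 2 * m + 3 = 2 * (m + 1) + 1 by ring]; exact eo _
    rw [hF, hR, QQ]
    simp only [eval_add, eval_sub, eval_finsetSum, eval_mul, eval_C, eval_pow, eval_X, one_pow,
      mul_one, ee, eo, e4, PP_neg_one h3 m hm ψ]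
    rw [← Finset.sum_mul]
    linear_combination 2 * e2
  have hG0 : F - R = 0 := by
    set β : K := (F - R).coeff (2 * m) with hβ
    have hmon : (PP ψ).coeff (2 * m) = 1 := by
      have := (PP_monic ψ).coeff_natDegree
      rwa [PP_deg m hm] at this
    have e1 : (F - R) - C β * PP ψ = 0 := by
      have hd : ∀ n, 2 * m - 1 < n → ((F - R) - C β * PP ψ).coeff n = 0 := by
        intro n hn
        rw [coeff_sub, coeff_C_mul]
        rcases Nat.lt_or_ge (2 * m) n with h | h
        · have e5 : (PP ψ).coeff n = 0 := coeff_eq_zero_of_natDegree_lt (by rw [PP_deg m hm]; exact h)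
          have e6 : (F - R).coeff n = 0 := coeff_eq_zero_of_natDegree_lt (lt_of_le_of_lt hGdeg h)
          rw [e5, e6]; simp
        · have hn2 : n = 2 * m := by omega
          subst hn2
          rw [hmon]; simp [hβ]
      have hd2 : ((F - R) - C β * PP ψ).natDegree ≤ 2 * m - 1 := natDegree_le_iff_coeff_eq_zero.mpr hd
      classical
      apply eq_zero_of_natDegree_lt_card_of_eval_eq_zero' ((F - R) - C β * PP ψ)
        ((univ.erase (0 : ZMod p)).image (pt ψ))
      · intro x hx
        rw [Finset.mem_image] at hx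
        obtain ⟨k, hk, rfl⟩ := hx
        have hk0 : k ≠ 0 := by simpa using hk
        rw [eval_sub, eval_mul, hGroot k hk, PP_root ψ hk0]; simp
      · rw [Finset.card_image_of_injOn (pt_inj m hm ψ hψ), card_S m hm]; omega
    have e2 : F - R = C β * PP ψ := sub_eq_zero.mp e1
    have e3 : β * (PP ψ).eval 1 = β * (PP ψ).eval (-1) := by
      have := hG1
      rw [e2] at this
      simpa using this
    rw [PP_neg_one h3 m hm ψ] at e3
    have e4 : 2 * (β * (PP ψ).eval 1) = 0 := by linear_combination e3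
    have hne : (PP ψ).eval 1 ≠ 0 := by
      intro h0
      have := PP_one_sq h3 m hm ψ hψ
      rw [h0] at this
      apply hpK
      linear_combination this
    have e5 : β = 0 := by
      rcases mul_eq_zero.mp e4 with h | h
      · exact absurd h h2
      · rcases mul_eq_zero.mp h with h | h
        · exact h
        · exact absurd h hne
    rw [e2, e5]; simp
  exact sub_eq_zero.mp hG0

include h3 hm hm2 hψ in
/-- the sum of the entries of the solution. -/
theorem core2_sum (v : ℕ → K) (b0 b1 : K)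
    (hv : ∀ i ∈ range (m + 1), ∑ j ∈ range (m + 1), chi p K ((i : ZMod p) - (j : ZMod p)) * v j =
      if i = 0 then b0 else if i = 1 then b1 else 0) :
    ∑ j ∈ range (m + 1), v j =
      (-(p : K)⁻¹ * chi p K 2 * gaussSum (chi p K) ψ) * (PP ψ).eval 1 * (m * b1 - b0) := by
  obtain ⟨y, hy⟩ := core2 h3 m hm hm2 ψ hψ v b0 b1 hv
  have ee : ∀ n : ℕ, (-1 : K) ^ (2 * n) = 1 := fun n => by rw [pow_mul]; simp
  have eo : ∀ n : ℕ, (-1 : K) ^ (2 * n + 1) = -1 := fun n => by rw [pow_succ, ee]; simp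
  have e4 : (-1 : K) ^ (2 * m + 3) = -1 := by
    rw [show 2 * m + 3 = 2 * (m + 1) + 1 by ring]; exact eo _
  have h1 := congrArg (eval 1) hy
  have h2 := congrArg (eval (-1)) hy
  simp only [QQ, eval_add, eval_sub, eval_finsetSum, eval_mul, eval_C, eval_pow, eval_X, one_pow,
      mul_one, ee, eo, e4, PP_neg_one h3 m hm ψ] at h1 h2
  rw [← Finset.sum_mul] at h2
  have h0 : (2 : K) ≠ 0 := two_ne_zero
  apply mul_left_cancel₀ h0
  linear_combination h1 + h2

include h3 hm hm2 hψ in
/-- the entry `v_{m-1}` of the solution. -/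
theorem core2_entry (v : ℕ → K) (b0 : K)
    (hv : ∀ i ∈ range (m + 1), ∑ j ∈ range (m + 1), chi p K ((i : ZMod p) - (j : ZMod p)) * v j =
      if i = 0 then b0 else if i = 1 then 0 else 0) :
    3 * v (m - 1) = - chi p K 2 * (m - 1 - chi p K 3) * b0 := by
  have hp : p.Prime := Fact.out
  have hpK : (p : K) ≠ 0 := by exact_mod_cast hp.ne_zero
  obtain ⟨y, hy⟩ := core2 h3 m hm hm2 ψ hψ v b0 0 hv
  obtain ⟨c1, c2, c3⟩ := PP_coeffs h3 m hm hm2 ψ hψ
  have hg := g_sq h3 ψ hψ (two_ne_zero (α := K))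
  have h1 := congrArg (fun q : K[X] => q.coeff (2 * (m - 1))) hy
  change coeff _ (2 * (m - 1)) = coeff _ (2 * (m - 1)) at h1
  rw [coeff_sub, finsetSum_coeff, finsetSum_coeff] at h1
  simp only [coeff_C_mul_X_pow] at h1
  rw [Finset.sum_eq_single (m - 1) (by intro b _ hb; rw [if_neg (by omega)])
    (by intro h; exfalso; apply h; rw [Finset.mem_range]; omega)] at h1
  rw [Finset.sum_eq_zero (by intro l _; rw [if_neg (by omega)])] at h1
  rw [if_pos rfl, C_0, zero_mul, add_zero, coeff_C_mul, coeff_C_mul, coeff_sub, coeff_X_pow,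
    if_neg (by omega), show 2 * (m - 1) = (2 * m - 3) + 1 by omega, coeff_X_mul] at h1
  have h2 : v (m - 1) = (p : K)⁻¹ * chi p K 2 * gaussSum (chi p K) ψ * b0 * (PP ψ).coeff (2 * m - 3) := by
    linear_combination h1
  rw [h2]
  field_simp
  linear_combination (chi p K 2 * gaussSum (chi p K) ψ * b0) * c3 +
    (chi p K 2 * b0 * (m - 1 - chi p K 3)) * hg

end coeffs

end Pool.Agent.R945.LD
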