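import Mathlib
import Pool.Agent.R945.LD.One
import Pool.Agent.R945.LD.Border

set_option autoImplicit false

namespace Pool.Agent.R945.LD

open Finset Matrix

variable {p : ℕ} [Fact p.Prime]

lemma Bm_cast (m : ℕ) (R : Type*) [CommRing R] : (((Bm p m ℤ).det : ℤ) : R) = (Bm p m R).det := by
  have hmap : (Bm p m ℤ).map (Int.castRingHom R) = Bm p m R := by
    ext i j; simp [Bm]
  have h2 := (Int.castRingHom R).map_det (Bm p m ℤ)
  rw [RingHom.mapMatrix_apply, hmap] at h2
  exact h2

/-- the `(m+1)×(m+1)` determinant, `p = 1 mod 4`. -/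
theorem det_big {m : ℕ} (h1 : p % 4 = 1) (hm : p = 2 * m + 1) {R : Type*} [CommRing R]
    (x y z w : R) :
    (bd x (fun k => (z + 2) * xv p m R k + x) (fun j => (y + 2) * xv p m R j + x)
      (Matrix.of fun j k : Fin m => x + Bm p m R j k + xv p m R j * y + xv p m R k * z
      + xv p m R j * xv p m R k * w)).det = x * (p : R) ^ 2 * (Bm p m R).det := by
  have hpm : (p : R) = 2 * m + 1 := by
    have := congrArg (Nat.cast : ℕ → R) hm
    push_cast at this; exact this
  set M : Matrix (Fin m) (Fin m) R := Matrix.of fun j k => Bm p m R j k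
    - 2 * xv p m R j - 2 * xv p m R k + w * xv p m R j * xv p m R k with hM
  have e := bd_elim x (fun k => (z + 2) * xv p m R k) (fun j => (y + 2) * xv p m R j) M
  have e1 : (Matrix.of fun j k : Fin m => x + Bm p m R j k + xv p m R j * y + xv p m R k * z
      + xv p m R j * xv p m R k * w) =
      Matrix.of fun j k => M j k + (y + 2) * xv p m R j + (z + 2) * xv p m R k + x := by
    ext j k
    simp only [hM, Matrix.of_apply]
    ring
  rw [e1, e, bd_corner, bd_scale, bd_zero]
  have hMdet : M.det = (Bm p m R).det * (p : R) ^ 2 := by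
    have h := det_four h1 hm (0 : R) (-2) (-2) w
    have e2 : M = (Matrix.of fun j k : Fin m => 0 + Bm p m R j k + xv p m R j * (-2)
      + xv p m R k * (-2) + xv p m R j * xv p m R k * w) := by
      ext j k
      simp only [hM, Matrix.of_apply]
      ring
    rw [e2, h, hpm]
    ring
  have hMdet2 : (Matrix.of fun j k => M j k - xv p m R j * xv p m R k).det =
      (Bm p m R).det * (p : R) ^ 2 := by
    have h := det_four h1 hm (0 : R) (-2) (-2) (w - 1)
    have e2 : (Matrix.of fun j k => M j k - xv p m R j * xv p m R k) =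
      (Matrix.of fun j k : Fin m => 0 + Bm p m R j k + xv p m R j * (-2)
      + xv p m R k * (-2) + xv p m R j * xv p m R k * (w - 1)) := by
      ext j k
      simp only [hM, Matrix.of_apply]
      ring
    rw [e2, h, hpm]
    ring
  rw [hMdet, hMdet2]
  ring

/-- the quadratic form `χᵀ A χ` -/
noncomputable def qf (p : ℕ) [Fact p.Prime] (m : ℕ) : ℤ :=
  ∑ j : Fin m, ∑ k : Fin m, xv p m ℤ j * xv p m ℤ k * Am p m ℤ j k

lemma four_dvd_qf {m : ℕ} (h1 : p % 4 = 1) (hm : p = 2 * m + 1) : (4 : ℤ) ∣ qf p m := by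
  have hp2 : p ≠ 2 := by omega
  set G : ℕ → ℕ → ℤ := fun j k => q p (J p j) * q p (J p k) *
    (q p (J p j + J p k) - q p (J p j - J p k)) with hG
  have h := four_dvd G m (by
    intro j hj k hk
    simp only [hG]
    rw [add_comm (J p k), ← q_even h1 (J p k - J p j), neg_sub]; ring) (by
    intro j hj k hk hjk
    simp only [hG]
    apply Dvd.dvd.mul_left
    have n1 := J_add_ne hm ⟨j, hj⟩ ⟨k, hk⟩
    have n2 : J p j - J p k ≠ 0 := by
      intro h0
      have := (J_sub hm ⟨j, hj⟩ ⟨k, hk⟩).mp h0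
      apply hjk
      simpa using this
    rcases quadraticChar_dichotomy n1 with h | h <;>
      rcases quadraticChar_dichotomy n2 with h' | h' <;>
      simp only [q] <;> simp only [h, h'] <;> norm_num)
  have h0 : ∑ j ∈ range m, G j j = 0 := by
    rw [← Fin.sum_univ_eq_sum_range (fun j => G j j)]
    have : ∀ j : Fin m, G j j = q p (J p j + J p j) := by
      intro j
      simp only [hG, sub_self]
      have h2 := q_sq (J_ne hm j)
      rw [q_zero]
      linear_combination (q p (J p j + J p j)) * h2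
    rw [Finset.sum_congr rfl (fun j _ => this j)]
    exact trace_q h1 hm
  rw [h0, sub_zero] at h
  have e : qf p m = ∑ j ∈ range m, ∑ k ∈ range m, G j k := by
    rw [← Fin.sum_univ_eq_sum_range (fun j => ∑ k ∈ range m, G j k)]
    unfold qf
    apply Finset.sum_congr rfl
    intro j _
    rw [← Fin.sum_univ_eq_sum_range (fun k => G j k)]
    apply Finset.sum_congr rfl
    intro k _
    simp [hG, xv, Am]
  rw [e]; exact h

/-- the bordered determinant of `A`. -/
theorem det_bd_A {m : ℕ} (h1 : p % 4 = 1) (hm : p = 2 * m + 1) :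
    (bd 0 (xv p m ℤ) (xv p m ℤ) (Am p m ℤ)).det * p = - (-(p : ℤ)) ^ (m / 2) * qf p m := by
  have hp : p.Prime := Fact.out
  have hpQ : (p : ℚ) ≠ 0 := by exact_mod_cast hp.ne_zero
  -- over `ℚ`
  have hmap : ∀ (r : Fin m → ℤ) (u : Fin m → ℤ) (M : Matrix (Fin m) (Fin m) ℤ) (c : ℤ),
      (bd c r u M).map (Int.castRingHom ℚ) =
      bd (c : ℚ) (fun k => (r k : ℚ)) (fun k => (u k : ℚ)) (M.map (Int.castRingHom ℚ)) := by
    intro r u M c
    apply eq_bd <;> intros <;> rfl
  have hA : (Am p m ℤ).map (Int.castRingHom ℚ) = Am p m ℚ := by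
    ext i j; simp [Am]
  have hsq : Am p m ℚ * Am p m ℚ = (p : ℚ) • (1 : Matrix (Fin m) (Fin m) ℚ) := by
    ext j k
    rw [Matrix.mul_apply]
    simp only [Am, Matrix.of_apply, Matrix.smul_apply, Matrix.one_apply, smul_eq_mul]
    have := congrArg (Int.cast : ℤ → ℚ) (sum_AA h1 hm j k)
    push_cast at this ⊢
    rw [this]
    split_ifs <;> simp
  have hdetA : (Am p m ℚ).det = (-(p : ℚ)) ^ (m / 2) := by
    have h2 := (Int.castRingHom ℚ).map_det (Am p m ℤ)
    rw [RingHom.mapMatrix_apply, hA, det_A h1 hm] at h2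
    rw [← h2]; simp
  have hd : (bd 0 (xv p m ℚ) (xv p m ℚ) (Am p m ℚ)).det * p =
      - (-(p : ℚ)) ^ (m / 2) * (qf p m : ℚ) := by
    rw [bd_zero]
    have hfac : (Matrix.of fun j k => Am p m ℚ j k - xv p m ℚ j * xv p m ℚ k) =
        Am p m ℚ * (1 + replicateCol Unit ((-(p : ℚ)⁻¹) • (Am p m ℚ).mulVec (xv p m ℚ)) *
          replicateRow Unit (xv p m ℚ)) := by
      have hcol : Am p m ℚ * replicateCol Unit ((-(p : ℚ)⁻¹) • (Am p m ℚ).mulVec (xv p m ℚ)) =
          replicateCol Unit (- xv p m ℚ) := by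
        rw [← replicateCol_mulVec]
        congr 1
        rw [mulVec_smul, mulVec_mulVec, hsq, smul_mulVec, one_mulVec, smul_smul]
        ext j
        simp [hpQ]
      rw [Matrix.mul_add, Matrix.mul_one, ← Matrix.mul_assoc, hcol]
      ext j k
      simp [Matrix.mul_apply]
      ring
    rw [hfac, det_mul, det_one_add_replicateCol_mul_replicateRow, hdetA]
    have hqf : xv p m ℚ ⬝ᵥ ((-(p : ℚ)⁻¹) • (Am p m ℚ).mulVec (xv p m ℚ)) =
        -(p : ℚ)⁻¹ * (qf p m : ℚ) := by
      rw [dotProduct_smul, smul_eq_mul]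
      congr 1
      unfold qf
      push_cast
      simp only [dotProduct, mulVec, Finset.mul_sum]
      apply Finset.sum_congr rfl
      intro j _
      apply Finset.sum_congr rfl
      intro k _
      simp only [xv, Am, Matrix.of_apply]
      push_cast
      ring
    rw [hqf]
    field_simp
    ring
  have h3 := (Int.castRingHom ℚ).map_det (bd 0 (xv p m ℤ) (xv p m ℤ) (Am p m ℤ))
  rw [RingHom.mapMatrix_apply, hmap, hA] at h3
  have h4 : (((bd 0 (xv p m ℤ) (xv p m ℤ) (Am p m ℤ)).det : ℤ) : ℚ) =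
      (bd 0 (xv p m ℚ) (xv p m ℚ) (Am p m ℚ)).det := by
    have : (bd (((0 : ℤ) : ℚ)) (fun k => ((xv p m ℤ k : ℤ) : ℚ)) (fun k => ((xv p m ℤ k : ℤ) : ℚ))
        (Am p m ℚ)) = bd 0 (xv p m ℚ) (xv p m ℚ) (Am p m ℚ) := by
      congr 1
    rw [this] at h3
    exact h3
  rw [← h4] at hd
  exact_mod_cast hd

theorem exists_c {m : ℕ} (h1 : p % 4 = 1) (hm : p = 2 * m + 1) :
    ∃ c : ℤ, (bd 0 (xv p m ℤ) (xv p m ℤ) (Am p m ℤ)).det = 4 * (p : ℤ) ^ (m / 2 - 1) * c := by
  have hp : p.Prime := Fact.out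
  have hpz : (p : ℤ) ≠ 0 := by exact_mod_cast hp.ne_zero
  obtain ⟨d, hd⟩ := four_dvd_qf h1 hm
  have h := det_bd_A h1 hm
  have hm2 : 2 ≤ m := by
    have := hp.two_le
    omega
  obtain ⟨k, hk⟩ : ∃ k, m / 2 = k + 1 := ⟨m / 2 - 1, by omega⟩
  rw [hk, hd] at h
  rw [hk]
  refine ⟨(-1) ^ k * d, ?_⟩
  apply mul_right_cancel₀ hpz
  rw [h]
  have : k + 1 - 1 = k := by omega
  rw [this, neg_pow (p : ℤ) (k + 1)]
  ring

end Pool.Agent.R945.LD
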