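import Mathlib

set_option autoImplicit false

namespace Pool.Agent.R945.LD

open Finset Matrix

variable {K : Type*} [Field K] [CharZero K]

lemma skew_dot {n : Type*} [Fintype n] (A : Matrix n n K) (hA : Aᵀ = -A) (a b : n → K) :
    a ⬝ᵥ A.mulVec b = - (b ⬝ᵥ A.mulVec a) := by
  rw [Matrix.dotProduct_mulVec, ← Matrix.mulVec_transpose, hA, Matrix.neg_mulVec, neg_dotProduct,
    dotProduct_comm]

/-- Adding `x` to all entries of a principal submatrix of a skew matrix of determinant one. -/
lemma skew_border {N : ℕ} (A : Matrix (Fin (N + 1)) (Fin (N + 1)) K) (hA : Aᵀ = -A)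
    (hdet : A.det = 1) (u : Fin (N + 1) → K) (hu : A.mulVec u = Pi.single 0 1) (x : K) :
    (Matrix.of fun i j : Fin N => x + A i.succ j.succ).det = x * (∑ i, u i) ^ 2 := by
  have hunit : IsUnit A.det := by rw [hdet]; exact isUnit_one
  set one : Fin (N + 1) → K := fun _ => 1 with hone
  set κ : Fin (N + 1) → K := A⁻¹.mulVec one with hκ
  have hAκ : A.mulVec κ = one := by
    rw [hκ, Matrix.mulVec_mulVec, Matrix.mul_nonsing_inv _ hunit, Matrix.one_mulVec]
  set σ := ∑ i, u i with hσ
  have h1u : one ⬝ᵥ u = σ := by simp [hone, dotProduct, hσ]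
  have h2 : (2 : K) ≠ 0 := two_ne_zero
  have h1κ : one ⬝ᵥ κ = 0 := by
    have h := skew_dot A hA κ κ
    rw [hAκ, dotProduct_comm] at h
    have h' : 2 * (one ⬝ᵥ κ) = 0 := by linear_combination h
    exact (mul_eq_zero.mp h').resolve_left h2
  have hu0 : u 0 = 0 := by
    have h := skew_dot A hA u u
    rw [hu] at h
    simp only [dotProduct_single, mul_one] at h
    have h' : 2 * u 0 = 0 := by linear_combination h
    exact (mul_eq_zero.mp h').resolve_left h2
  have hκ0 : κ 0 = - σ := by
    have h := skew_dot A hA κ u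
    rw [hu, hAκ, dotProduct_comm u one, h1u] at h
    simpa using h
  set L : Matrix (Fin (N + 1)) (Fin (N + 1)) K := A * (1 + replicateCol Unit (x • κ) *
    replicateRow Unit one) with hL
  have hLdet : L.det = 1 := by
    rw [hL, det_mul, det_one_add_replicateCol_mul_replicateRow, hdet, dotProduct_smul, h1κ]
    simp
  have hLe : ∀ i j, L i j = x + A i j := by
    intro i j
    have hcol : A * replicateCol Unit (x • κ) = replicateCol Unit (x • one) := by
      rw [← replicateCol_mulVec, mulVec_smul, hAκ]
    rw [hL, Matrix.mul_add, Matrix.mul_one, ← Matrix.mul_assoc, hcol]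
    simp [Matrix.mul_apply, hone]
    ring
  set z : Fin (N + 1) → K := u - (x * σ) • κ with hz
  have hLz : L.mulVec z = Pi.single 0 1 := by
    have hLm : ∀ y : Fin (N + 1) → K, L.mulVec y = A.mulVec y + (x * (one ⬝ᵥ y)) • one := by
      intro y
      ext i
      simp only [mulVec, dotProduct, hLe, Pi.add_apply, Pi.smul_apply, smul_eq_mul, hone, mul_one,
        one_mul, Finset.mul_sum]
      rw [← Finset.sum_add_distrib]
      apply Finset.sum_congr rfl
      intro j _
      ring
    rw [hLm, hz, mulVec_sub, mulVec_smul, hu, hAκ, dotProduct_sub, dotProduct_smul, h1κ, h1u]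
    ext i
    simp
  have hadj : L.adjugate.mulVec (L.mulVec z) = z := by
    rw [Matrix.mulVec_mulVec, Matrix.adjugate_mul, hLdet, one_smul, Matrix.one_mulVec]
  rw [hLz] at hadj
  have h00 := congrFun hadj 0
  rw [Matrix.mulVec_single_one] at h00
  have h3 : L.adjugate 0 0 = z 0 := h00
  rw [Matrix.adjugate_fin_succ_eq_det_submatrix] at h3
  have h4 : L.submatrix (Fin.succAbove 0) (Fin.succAbove 0) =
      Matrix.of fun i j : Fin N => x + A i.succ j.succ := by
    ext i j
    simp [hLe]
  rw [h4] at h3
  simp only [Fin.val_zero, add_zero, pow_zero, one_mul] at h3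
  rw [h3, hz]
  simp only [Pi.sub_apply, Pi.smul_apply, smul_eq_mul, hu0, hκ0]
  ring

end Pool.Agent.R945.LD
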