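import Mathlib
import Pool.Agent.R945.LD.Core2
import Pool.Agent.R945.LD.Skew

set_option autoImplicit false
set_option linter.unusedSectionVars false

namespace Pool.Agent.R945.LD

open Finset Polynomial Pool.Agent.Helper184.Chapman

/-- from complex values to a polynomial identity -/
lemma lift_poly (n : ℕ) (f : Fin n → Fin n → ℤ) (c : ℤ)
    (h : ∀ x : ℂ, (Matrix.of fun i j : Fin n => x + (f i j : ℂ)).det = c * x) :
    (Matrix.of fun i j : Fin n => (X : ℤ[X]) + C (f i j)).det = C c * X := by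
  apply Polynomial.map_injective (Int.castRingHom ℂ) Int.cast_injective
  apply Polynomial.funext
  intro x
  set φ : ℤ[X] →+* ℂ := Polynomial.eval₂RingHom (Int.castRingHom ℂ) x with hφ
  have e1 : ∀ q : ℤ[X], (q.map (Int.castRingHom ℂ)).eval x = φ q := by
    intro q; rw [eval_map]; rfl
  have hφX : φ X = x := by rw [hφ]; exact eval₂_X _ _
  have hφC : ∀ n : ℤ, φ (C n) = (n : ℂ) := by
    intro n
    rw [hφ]
    exact (eval₂_C _ _).trans (eq_intCast _ n)
  rw [e1, e1, RingHom.map_det, RingHom.mapMatrix_apply]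
  have e2 : (Matrix.of fun i j : Fin n => (X : ℤ[X]) + C (f i j)).map φ =
      Matrix.of fun i j : Fin n => x + (f i j : ℂ) := by
    ext i j
    rw [Matrix.map_apply, Matrix.of_apply, Matrix.of_apply, map_add, hφX, hφC]
  rw [e2, h, map_mul, hφX, hφC]

variable {p : ℕ} [Fact p.Prime]

lemma T_transpose (h3 : p % 4 = 3) (K : Type*) [Field K] (n : ℕ) : (T p K n).transpose = - T p K n := by
  ext i j
  have := chi_neg (K := K) h3 (((i : ℕ) : ZMod p) - ((j : ℕ) : ZMod p))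
  rw [neg_sub, chi_apply, chi_apply] at this
  simpa [T] using this

lemma det_T_big (h3 : p % 4 = 3) (m : ℕ) (hm : p = 2 * m + 1) : (T p ℤ (m + 1)).det = 1 := by
  have habs : (T p ℤ (m + 1)).det.natAbs = 1 :=
    det_unit (m + 1) (fun l _ v hv => sys_mod h3 m hm l v hv)
  have hnn : 0 ≤ (T p ℤ (m + 1)).det := by
    have h := det_skew_nonneg (T p ℝ (m + 1)) (T_transpose h3 ℝ _)
    rw [← det_cast] at h
    exact_mod_cast h
  omega

lemma det_T_mid (h3 : p % 4 = 3) (m : ℕ) (hm : p = 2 * m + 1) (hm1 : 1 ≤ m) :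
    (T p ℤ (m - 1)).det = 1 := by
  have habs : (T p ℤ (m - 1)).det.natAbs = 1 :=
    det_unit (m - 1) (fun l _ v hv => mid_mod h3 m hm hm1 l v hv)
  have hnn : 0 ≤ (T p ℤ (m - 1)).det := by
    have h := det_skew_nonneg (T p ℝ (m - 1)) (T_transpose h3 ℝ _)
    rw [← det_cast] at h
    exact_mod_cast h
  omega

lemma exists_sol (n : ℕ) (hdet : (T p ℤ (n + 1)).det = 1) :
    ∃ u : Fin (n + 1) → ℂ, (T p ℂ (n + 1)).mulVec u = Pi.single 0 1 := by
  have hd : (T p ℂ (n + 1)).det = 1 := by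
    rw [← det_cast, hdet]; simp
  have hunit : IsUnit (T p ℂ (n + 1)).det := by rw [hd]; exact isUnit_one
  refine ⟨(T p ℂ (n + 1))⁻¹.mulVec (Pi.single 0 1), ?_⟩
  rw [Matrix.mulVec_mulVec, Matrix.mul_nonsing_inv _ hunit, Matrix.one_mulVec]

lemma sol_range (n : ℕ) (u : Fin (n + 1) → ℂ) (hu : (T p ℂ (n + 1)).mulVec u = Pi.single 0 1) :
    ∀ i ∈ range (n + 1), ∑ j ∈ range (n + 1), chi p ℂ ((i : ZMod p) - (j : ZMod p)) * ext u j =
      if i = 0 then 1 else 0 := by
  intro i hi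
  rw [Finset.mem_range] at hi
  have h := congrFun hu ⟨i, hi⟩
  rw [mulVec_eq] at h
  rw [h, Pi.single_apply]
  simp [Fin.ext_iff]

lemma sum_ext (n : ℕ) (u : Fin n → ℂ) : ∑ j ∈ range n, ext u j = ∑ j, u j := by
  rw [← Fin.sum_univ_eq_sum_range (fun j => ext u j)]
  apply Finset.sum_congr rfl
  intro j _
  rw [ext_val]

/-- a primitive additive character over `ℂ` -/
lemma prim : (ZMod.stdAddChar : AddChar (ZMod p) ℂ).IsPrimitive := ZMod.isPrimitive_stdAddChar p

lemma aP_sq (h3 : p % 4 = 3) (m : ℕ) (hm : p = 2 * m + 1) (ψ : AddChar (ZMod p) ℂ)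
    (hψ : ψ.IsPrimitive) :
    ((-(p : ℂ)⁻¹ * chi p ℂ 2 * gaussSum (chi p ℂ) ψ) * (PP ψ).eval 1) ^ 2 = 1 := by
  have hp : p.Prime := Fact.out
  have hp2 : p ≠ 2 := by omega
  have hpK : (p : ℂ) ≠ 0 := by exact_mod_cast hp.ne_zero
  have h6 : (2 : ZMod p) ≠ 0 := by
    intro h
    have : ((2 : ℕ) : ZMod p) = 0 := by exact_mod_cast h
    rw [ZMod.natCast_eq_zero_iff] at this
    exact hp2 ((Nat.prime_dvd_prime_iff_eq (Fact.out : p.Prime) Nat.prime_two).mp this)
  have e1 := g_sq h3 ψ hψ (two_ne_zero (α := ℂ))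
  have e2 := PP_one_sq h3 m hm ψ hψ
  have e3 := chi_sq (K := ℂ) h6
  rw [mul_pow, mul_pow, mul_pow, e1, e2]
  field_simp
  linear_combination e3

theorem sum_order_m (h3 : p % 4 = 3) (m : ℕ) (hm : p = 2 * m + 1) (hm2 : 2 ≤ m) (x : ℂ) :
    (Matrix.of fun i j : Fin m => x + (((quadraticChar (ZMod p) (((i : ℕ) : ZMod p)
      - ((j : ℕ) : ZMod p)) : ℤ)) : ℂ)).det = x := by
  have hdet := det_T_big h3 m hm
  obtain ⟨u, hu⟩ := exists_sol m hdet
  have hd : (T p ℂ (m + 1)).det = 1 := by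
    rw [← det_cast, hdet]; simp
  have h := skew_border (T p ℂ (m + 1)) (T_transpose h3 ℂ _) hd u hu x
  have hs := core2_sum h3 m hm hm2 ZMod.stdAddChar prim (ext u) 1 0 (by
    intro i hi
    rw [sol_range m u hu i hi]
    simp)
  rw [sum_ext] at hs
  have hM : (Matrix.of fun i j : Fin m => x + T p ℂ (m + 1) i.succ j.succ) =
      (Matrix.of fun i j : Fin m => x + (((quadraticChar (ZMod p) (((i : ℕ) : ZMod p)
      - ((j : ℕ) : ZMod p)) : ℤ)) : ℂ)) := by
    ext i j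
    simp [T]
  rw [← hM, h, hs]
  have h2 := aP_sq h3 m hm ZMod.stdAddChar prim
  rw [mul_pow, h2]
  ring

theorem sum_order_m2 (h3 : p % 4 = 3) (N : ℕ) (hm : p = 2 * (N + 2) + 1) (x : ℂ) :
    9 * (Matrix.of fun i j : Fin N => x + (((quadraticChar (ZMod p) (((i : ℕ) : ZMod p)
      - ((j : ℕ) : ZMod p)) : ℤ)) : ℂ)).det = x * (p - 3 + chi p ℂ 3) ^ 2 := by
  have hp : p.Prime := Fact.out
  have hp2 : p ≠ 2 := by omega
  have hpK : (p : ℂ) ≠ 0 := by exact_mod_cast hp.ne_zero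
  have h6 : (2 : ZMod p) ≠ 0 := by
    intro h
    have : ((2 : ℕ) : ZMod p) = 0 := by exact_mod_cast h
    rw [ZMod.natCast_eq_zero_iff] at this
    exact hp2 ((Nat.prime_dvd_prime_iff_eq (Fact.out : p.Prime) Nat.prime_two).mp this)
  have hpm : (p : ℂ) = 2 * ((N + 2 : ℕ) : ℂ) + 1 := by
    have := congrArg (Nat.cast : ℕ → ℂ) hm
    push_cast at this ⊢; exact this
  have hdet1 := det_T_mid h3 (N + 2) hm (by omega)
  rw [show N + 2 - 1 = N + 1 by omega] at hdet1
  have hdet2 := det_T_big h3 (N + 2) hm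
  obtain ⟨u, hu⟩ := exists_sol N hdet1
  obtain ⟨v', hv'⟩ := exists_sol (N + 2) hdet2
  have hd : (T p ℂ (N + 1)).det = 1 := by
    rw [← det_cast, hdet1]; simp
  have h := skew_border (T p ℂ (N + 1)) (T_transpose h3 ℂ _) hd u hu x
  have hM : (Matrix.of fun i j : Fin N => x + T p ℂ (N + 1) i.succ j.succ) =
      (Matrix.of fun i j : Fin N => x + (((quadraticChar (ZMod p) (((i : ℕ) : ZMod p)
      - ((j : ℕ) : ZMod p)) : ℤ)) : ℂ)) := by
    ext i j
    simp [T]
  rw [← hM, h]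
  set ψ : AddChar (ZMod p) ℂ := ZMod.stdAddChar with hψ
  have hprim : ψ.IsPrimitive := prim
  set g := gaussSum (chi p ℂ) ψ with hg
  have hg2 := g_sq h3 ψ hprim (two_ne_zero (α := ℂ))
  rw [← hg] at hg2
  set a : ℂ := -(p : ℂ)⁻¹ * chi p ℂ 2 * g with ha
  have hag : a * g = chi p ℂ 2 := by
    rw [ha]; field_simp; linear_combination (-chi p ℂ 2) * hg2
  have hc2 := chi_sq (K := ℂ) h6
  obtain ⟨c1, c2, c3⟩ := PP_coeffs h3 (N + 2) hm (by omega) ψ hprim
  rw [← hg] at c1 c3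
  have hmon := (PP_monic ψ).coeff_natDegree
  rw [PP_deg (N + 2) hm] at hmon
  have hP0 : (PP ψ).coeff 0 = -1 := by
    rw [coeff_zero_eq_eval_zero, PP, eval_prod]
    have e : ∀ k ∈ univ.erase (0 : ZMod p), eval 0 (X - C (pt ψ k)) =
        (-1) * (chi p ℂ k * ψ k) := by
      intro k _; simp [pt]
    have e9 : ∏ k ∈ univ.erase (0 : ZMod p), ψ k = 1 := by
      have h1 := prod_psi hp2 ψ
      have h2 : (∏ k ∈ univ.erase (0 : ZMod p), ψ k) * ∏ k ∈ univ.erase (0 : ZMod p), ψ (-k) = 1 := by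
        rw [← Finset.prod_mul_distrib]
        apply Finset.prod_eq_one
        intro k _
        rw [← AddChar.map_add_eq_mul]; simp
      rwa [h1, mul_one] at h2
    rw [Finset.prod_congr rfl e, Finset.prod_mul_distrib, Finset.prod_mul_distrib,
      Finset.prod_const, card_S (N + 2) hm, prod_chi h3, e9]
    simp
  -- the solution `v`
  set v : ℕ → ℂ := ext v' with hv
  have hvs := sol_range (N + 2) v' hv'
  rw [← hv] at hvs
  have hvb : ∀ i ∈ range (N + 2 + 1), ∑ j ∈ range (N + 2 + 1),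
      chi p ℂ ((i : ZMod p) - (j : ZMod p)) * v j = if i = 0 then 1 else if i = 1 then 0 else 0 := by
    intro i hi
    rw [hvs i hi]; simp
  obtain ⟨y, hy⟩ := core2 h3 (N + 2) hm (by omega) ψ hprim v 1 0 hvb
  have hvsum := core2_sum h3 (N + 2) hm (by omega) ψ hprim v 1 0 hvb
  rw [← hg, ← ha] at hy hvsum
  -- coefficient extraction
  have hcoefL : ∀ (v : ℕ → ℂ) (y : ℕ → ℂ) (i : ℕ), i ∈ range (N + 2 + 1) →
      (∑ j ∈ range (N + 2 + 1), C (v j) * X ^ (2 * j) -
        ∑ l ∈ range (N + 2), C (y l) * X ^ (2 * l + 1) : ℂ[X]).coeff (2 * i) = v i := by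
    intro v y i hi
    rw [coeff_sub, finsetSum_coeff, finsetSum_coeff]
    simp only [coeff_C_mul_X_pow]
    rw [Finset.sum_eq_single i (by intro b _ hb; rw [if_neg (by omega)])
      (by intro h; exact absurd hi h)]
    rw [Finset.sum_eq_zero (by intro l _; rw [if_neg (by omega)])]
    simp
  have hv0 : v 0 = 0 := by
    have h1 := congrArg (fun q : ℂ[X] => q.coeff (2 * 0)) hy
    change coeff _ (2 * 0) = coeff _ (2 * 0) at h1
    rw [hcoefL v y 0 (by simp)] at h1
    rw [h1, C_0, zero_mul, add_zero, coeff_C_mul, coeff_C_mul, mul_zero]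
    rw [coeff_sub, coeff_X_pow, if_neg (by omega), mul_coeff_zero, coeff_X_zero]
    simp
  have hvm : v (N + 2) = chi p ℂ 2 := by
    have h1 := congrArg (fun q : ℂ[X] => q.coeff (2 * (N + 2))) hy
    change coeff _ (2 * (N + 2)) = coeff _ (2 * (N + 2)) at h1
    rw [hcoefL v y (N + 2) (by simp)] at h1
    rw [h1, C_0, zero_mul, add_zero, coeff_C_mul, coeff_C_mul]
    rw [coeff_sub, coeff_X_pow, if_neg (by omega), show 2 * (N + 2) = (2 * (N + 2) - 1) + 1 by omega,
      coeff_X_mul, c1]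
    linear_combination hag
  -- the reversed solution
  set rv : ℕ → ℂ := fun j => v (N + 2 - j) with hrv
  have hrvs : ∀ i ∈ range (N + 2 + 1), ∑ j ∈ range (N + 2 + 1),
      chi p ℂ ((i : ZMod p) - (j : ZMod p)) * rv j = if i = N + 2 then -1 else 0 := by
    intro i hi
    rw [Finset.mem_range] at hi
    rw [← Finset.sum_range_reflect]
    have e : ∀ j ∈ range (N + 2 + 1), chi p ℂ ((i : ZMod p) - ((N + 2 + 1 - 1 - j : ℕ) : ZMod p)) *
        rv (N + 2 + 1 - 1 - j) = - (chi p ℂ (((N + 2 - i : ℕ) : ZMod p) - (j : ZMod p)) * v j) := by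
      intro j hj
      rw [Finset.mem_range] at hj
      rw [← neg_mul, ← chi_neg h3, hrv]
      simp only
      rw [show N + 2 - (N + 2 + 1 - 1 - j) = j by omega]
      congr 2
      rw [Nat.cast_sub (show i ≤ N + 2 by omega), Nat.cast_sub (show j ≤ N + 2 + 1 - 1 by omega),
        Nat.add_sub_cancel]
      push_cast
      ring
    rw [Finset.sum_congr rfl e, Finset.sum_neg_distrib, hvs (N + 2 - i) (by rw [Finset.mem_range]; omega)]
    by_cases hi2 : i = N + 2
    · subst hi2; simp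
    · rw [if_neg (by omega), if_neg hi2]; simp
  have hrvsum : ∑ j ∈ range (N + 2 + 1), rv j = ∑ j ∈ range (N + 2 + 1), v j := by
    rw [← Finset.sum_range_reflect]
    apply Finset.sum_congr rfl
    intro j hj
    rw [Finset.mem_range] at hj
    rw [hrv]
    simp only
    congr 1
    omega
  -- the padded vector
  have hus := sol_range N u hu
  set w : ℕ → ℂ := fun j => if j = 0 ∨ j = N + 2 then 0 else ext u (j - 1) with hw
  have hw0 : w 0 = 0 := by simp [hw]
  have hwm : w (N + 2) = 0 := by simp [hw]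
  have hsumw : ∀ f : ℕ → ℂ, ∑ j ∈ range (N + 2 + 1), f j * w j =
      ∑ j ∈ range (N + 1), f (j + 1) * ext u j := by
    intro f
    rw [Finset.sum_range_succ, hwm, mul_zero, add_zero, Finset.sum_range_succ', hw0, mul_zero,
      add_zero]
    apply Finset.sum_congr rfl
    intro j hj
    rw [Finset.mem_range] at hj
    rw [hw]
    simp only
    rw [if_neg (by omega)]
    simp
  have hmid : ∀ i ∈ range (N + 1), ∑ j ∈ range (N + 2 + 1),
      chi p ℂ (((i + 1 : ℕ) : ZMod p) - (j : ZMod p)) * w j = if i = 0 then 1 else 0 := by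
    intro i hi
    rw [hsumw (fun j => chi p ℂ (((i + 1 : ℕ) : ZMod p) - (j : ZMod p))), ← hus i hi]
    apply Finset.sum_congr rfl
    intro j _
    congr 2
    push_cast
    ring
  set α := ∑ j ∈ range (N + 2 + 1), chi p ℂ (((0 : ℕ) : ZMod p) - (j : ZMod p)) * w j with hα
  set β := ∑ j ∈ range (N + 2 + 1), chi p ℂ (((N + 2 : ℕ) : ZMod p) - (j : ZMod p)) * w j with hβ
  set w' : ℕ → ℂ := fun j => w j - α * v j + β * rv j with hw'
  have hw's : ∀ i ∈ range (N + 2 + 1), ∑ j ∈ range (N + 2 + 1),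
      chi p ℂ ((i : ZMod p) - (j : ZMod p)) * w' j = if i = 0 then 0 else if i = 1 then 1 else 0 := by
    intro i hi
    have e3 : ∑ j ∈ range (N + 2 + 1), chi p ℂ ((i : ZMod p) - (j : ZMod p)) * w' j =
        ∑ j ∈ range (N + 2 + 1), chi p ℂ ((i : ZMod p) - (j : ZMod p)) * w j
        - α * ∑ j ∈ range (N + 2 + 1), chi p ℂ ((i : ZMod p) - (j : ZMod p)) * v j
        + β * ∑ j ∈ range (N + 2 + 1), chi p ℂ ((i : ZMod p) - (j : ZMod p)) * rv j := by
      rw [Finset.mul_sum, Finset.mul_sum, ← Finset.sum_sub_distrib, ← Finset.sum_add_distrib]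
      apply Finset.sum_congr rfl
      intro j _
      rw [hw']
      ring
    rw [e3, hvs i hi, hrvs i hi]
    rw [Finset.mem_range] at hi
    by_cases hi0 : i = 0
    · subst hi0
      rw [← hα, if_neg (by omega : (0 : ℕ) ≠ N + 2)]; simp
    by_cases him : i = N + 2
    · subst him
      rw [← hβ, if_neg (by omega : N + 2 ≠ 0), if_neg (by omega : N + 2 ≠ 0)]
      by_cases hN : N + 2 = 1
      · omega
      · rw [if_neg hN]; simp
    · obtain ⟨i', rfl⟩ : ∃ i', i = i' + 1 := ⟨i - 1, by omega⟩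
      rw [hmid i' (by rw [Finset.mem_range]; omega)]
      rw [if_neg hi0, if_neg him, if_neg hi0]
      by_cases hi1 : i' = 0
      · subst hi1; simp
      · rw [if_neg hi1, if_neg (by omega)]; simp
  obtain ⟨y2, hy2⟩ := core2 h3 (N + 2) hm (by omega) ψ hprim w' 0 1 hw's
  have hw'sum := core2_sum h3 (N + 2) hm (by omega) ψ hprim w' 0 1 hw's
  rw [← hg, ← ha] at hy2 hw'sum
  have hQ : PP ψ * QQ (N + 2) ψ = PP ψ * X ^ 3 + C g * (PP ψ * X ^ 2)
        - C (((N + 2 : ℕ) : ℂ) + 1) * (PP ψ * X) - C g * PP ψ := by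
    rw [QQ, ← hg]; ring
  have hw'0 : w' 0 = - (a * g) := by
    have h1 := congrArg (fun q : ℂ[X] => q.coeff (2 * 0)) hy2
    change coeff _ (2 * 0) = coeff _ (2 * 0) at h1
    rw [hcoefL w' y2 0 (by simp)] at h1
    rw [h1, C_0, zero_mul, zero_add, coeff_C_mul, coeff_C_mul, mul_zero, hQ]
    rw [coeff_sub, coeff_X_pow, if_neg (by omega), coeff_sub, coeff_sub, coeff_add, coeff_C_mul,
      coeff_C_mul, coeff_C_mul, mul_coeff_zero, mul_coeff_zero, mul_coeff_zero, coeff_X_zero, hP0]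
    simp
  have hw'm : w' (N + 2) = - (a * (PP ψ).coeff (2 * (N + 2) - 3)) := by
    have h1 := congrArg (fun q : ℂ[X] => q.coeff (2 * (N + 2))) hy2
    change coeff _ (2 * (N + 2)) = coeff _ (2 * (N + 2)) at h1
    rw [hcoefL w' y2 (N + 2) (by simp)] at h1
    rw [h1, C_0, zero_mul, zero_add, coeff_C_mul, coeff_C_mul, hQ]
    rw [coeff_sub, coeff_X_pow, if_neg (by omega), coeff_sub, coeff_sub, coeff_add, coeff_C_mul,
      coeff_C_mul, coeff_C_mul, hmon]
    have k1 : (PP ψ * X ^ 3).coeff (2 * (N + 2)) = (PP ψ).coeff (2 * (N + 2) - 3) := by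
      have : 2 * (N + 2) = (2 * (N + 2) - 3) + 3 := by omega
      conv_lhs => rw [this]
      rw [coeff_mul_X_pow]
    have k2 : (PP ψ * X ^ 2).coeff (2 * (N + 2)) = (PP ψ).coeff (2 * (N + 2) - 2) := by
      have : 2 * (N + 2) = (2 * (N + 2) - 2) + 2 := by omega
      conv_lhs => rw [this]
      rw [coeff_mul_X_pow]
    have k3 : (PP ψ * X).coeff (2 * (N + 2)) = (PP ψ).coeff (2 * (N + 2) - 1) := by
      have : 2 * (N + 2) = (2 * (N + 2) - 1) + 1 := by omega
      conv_lhs => rw [this]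
      rw [coeff_mul_X]
    rw [k1, k2, k3, c1, c2]
    ring
  have hβ1 : β = -1 := by
    have e1 : w' 0 = β * chi p ℂ 2 := by
      rw [hw']
      simp only
      rw [hw0, hv0, hrv]
      simp only [Nat.sub_zero]
      rw [hvm]; ring
    rw [hw'0, hag] at e1
    linear_combination (-chi p ℂ 2) * e1 - (1 + β) * hc2
  have hα1 : 3 * α = ((N + 2 : ℕ) : ℂ) - 1 - chi p ℂ 3 := by
    have e1 : w' (N + 2) = - α * chi p ℂ 2 := by
      rw [hw']
      simp only
      rw [hwm, hvm, hrv]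
      simp only [Nat.sub_self]
      rw [hv0]; ring
    rw [hw'm] at e1
    have e2 : 3 * α * chi p ℂ 2 = chi p ℂ 2 * (((N + 2 : ℕ) : ℂ) - 1 - chi p ℂ 3) := by
      linear_combination 3 * e1 + a * c3 + (((N + 2 : ℕ) : ℂ) - 1 - chi p ℂ 3) * hag
    linear_combination (chi p ℂ 2) * e2 - (3 * α - (((N + 2 : ℕ) : ℂ) - 1 - chi p ℂ 3)) * hc2
  have hsum : ∑ j ∈ range (N + 2 + 1), w' j = ∑ j, u j - α * ∑ j ∈ range (N + 2 + 1), v j
      + β * ∑ j ∈ range (N + 2 + 1), v j := by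
    have e1 := hsumw (fun _ => 1)
    simp only [one_mul] at e1
    rw [sum_ext] at e1
    rw [← e1, Finset.mul_sum, Finset.mul_sum, ← Finset.sum_sub_distrib]
    rw [← Finset.mul_sum, ← hrvsum, Finset.mul_sum, ← Finset.sum_add_distrib]
  have h2 := aP_sq h3 (N + 2) hm ψ hprim
  rw [← hg, ← ha] at h2
  set Y := a * (PP ψ).eval 1 with hY
  rw [hsum, hvsum, hβ1] at hw'sum
  have h3u : 3 * ∑ j, u j = Y * (p - 3 + chi p ℂ 3) := by
    rw [hpm]
    linear_combination 3 * hw'sum - Y * hα1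
  have h4 : 9 * (x * (∑ j, u j) ^ 2) = x * (3 * ∑ j, u j) ^ 2 := by ring
  rw [h4, h3u, mul_pow, h2]
  ring

end Pool.Agent.R945.LD
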